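import Pool.Agent.H83.SCD.Stage

/-! Scales, deterministic version: acceptance is verified deterministically with exponential padding. -/

namespace Pool.Agent.H83.SCD

open Pool.Agent.Lead.NTM Pool.Agent.H71.NT Pool.Agent.H79.Cx Encodable Denumerable
open Pool.Agent.H83.NT (Pl words mem_words accv AL AL_iff AccL accv_iff Coding exists_coding P3
  IsPi3 IndexSet exists_machine_of_desc mem_NTIMEPol_iff exists_time_bound closed_iff)
open Pool.Agent.H27.LD (aa ss uu mk3 inp EV exq Slowly)
open Pool.Agent.H83.SCL (Scale UPol Near sS sS_succ lv fm fm_succ)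

/-- Moving the head, with a coded move. -/
private def scdAccG_mv (m : ℕ) (t : H83.NT.TC) : H83.NT.TC :=
  if m = 0 then (t.1.tail, t.1.headD 0, t.2.1 :: t.2.2) else
    if m = 1 then t else (t.2.1 :: t.1, t.2.2.headD 0, t.2.2.tail)

private theorem scdAccG_mv_eq (m : ℕ) (t : H83.NT.TC) :
    H83.NT.moveT (H83.NT.mvc m) t = scdAccG_mv m t := by
  unfold scdAccG_mv H83.NT.mvc
  split_ifs with h0 h1
  · show (t.1.tail, t.1.headI, t.2.1 :: t.2.2) = _
    cases t.1 <;> rfl
  · rfl
  · show (t.2.1 :: t.1, t.2.2.headI, t.2.2.tail) = _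
    cases t.2.2 <;> rfl

private theorem scdAccG_pt_mv {α : Type} [Enc α] {m : α → ℕ} {t : α → H83.NT.TC} (hm : PT m)
    (ht : PT t) : PT (fun x => H83.NT.moveT (H83.NT.mvc (m x)) (t x)) := by
  have h : PT (fun x => scdAccG_mv (m x) (t x)) := by
    unfold scdAccG_mv
    fun_prop
  exact PT.congr h fun x => (scdAccG_mv_eq _ _).symm

private theorem scdAccG_pt_match (k : ℕ) :
    PT (fun z : H83.NT.CL × H83.NT.LR => decide (H83.NT.MatchL k z.2 z.1)) := by
  have h : PT (fun z : H83.NT.CL × H83.NT.LR => decide (z.1.1 = z.2.1.1) &&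
      (List.range (k + 1)).all fun i =>
        decide ((z.1.2.getD i H83.NT.dT).2.1 = z.2.1.2.getD i 0)) := by
    refine PT.and' (by fun_prop) (PT.all (n := fun _ => k + 1)
      (p := fun (z : H83.NT.CL × H83.NT.LR) i =>
        decide ((z.1.2.getD i H83.NT.dT).2.1 = z.2.1.2.getD i 0)) ?_ (PT.const _))
    fun_prop
  refine PT.congr h fun z => ?_
  rw [Bool.eq_iff_iff, decide_eq_true_iff]
  unfold H83.NT.MatchL
  rw [H83.NT.map_range_eq]
  simp only [Bool.and_eq_true, decide_eq_true_eq, List.all_eq_true, List.mem_range]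

private theorem scdAccG_pt_app (k : ℕ) :
    PT (fun z : H83.NT.CL × H83.NT.LR => H83.NT.appL k z.2 z.1) := by
  unfold H83.NT.appL
  refine PT.pair (by fun_prop) ?_
  refine PT.map (f := fun (z : H83.NT.CL × H83.NT.LR) i =>
    H83.NT.moveT (H83.NT.mvc (z.2.2.2.2.getD i 0))
    ((z.1.2.getD i H83.NT.dT).1, z.2.2.2.1.getD i 0, (z.1.2.getD i H83.NT.dT).2.2)) ?_ (PT.const _)
  refine scdAccG_pt_mv ?_ ?_
  · fun_prop
  · fun_prop

private theorem scdAccG_pt_succs (k : ℕ) (rs : List H83.NT.LR) :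
    PT (fun c : H83.NT.CL => H83.NT.succsL k rs c) := by
  unfold H83.NT.succsL
  refine PT.flatMap (f := fun (c : H83.NT.CL) (r : H83.NT.LR) =>
    if H83.NT.MatchL k r c then [H83.NT.appL k r c] else []) ?_ (PT.const rs)
  refine PT.ite' (p := fun z : H83.NT.CL × H83.NT.LR => H83.NT.MatchL k z.2 z.1)
    (scdAccG_pt_match k) ?_ (PT.const _)
  exact PT.consList (scdAccG_pt_app k) (PT.const _)

/-- No configuration of the list is accepting. -/
private def scdAccG_na (F : List ℕ) (L : List H83.NT.CL) : Bool :=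
  (L.flatMap fun c => F.filter fun a => decide (a = c.1)).isEmpty

private theorem scdAccG_na_iff (F : List ℕ) (L : List H83.NT.CL) :
    scdAccG_na F L = true ↔ ¬ ∃ c ∈ L, ∃ a ∈ F, a = c.1 := by
  unfold scdAccG_na
  rw [List.isEmpty_iff, List.flatMap_eq_nil_iff]
  simp only [List.filter_eq_nil_iff, decide_eq_true_eq, not_exists, not_and]

private theorem scdAccG_pt_na (F : List ℕ) : PT (scdAccG_na F) := by
  unfold scdAccG_na
  refine PT.isEmpty (PT.flatMap (f := fun (_ : List H83.NT.CL) (c : H83.NT.CL) =>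
    F.filter fun a => decide (a = c.1)) ?_ PT.id)
  exact PT.filter (f := fun (z : List H83.NT.CL × H83.NT.CL) a => decide (a = z.2.1))
    (by fun_prop) (PT.const F)

/-- One guarded step. -/
private def scdAccG_step (D : H83.NT.Desc) (P : ℕ) (x : List H83.NT.CL × Bool) :
    List H83.NT.CL × Bool :=
  if sz (x.1.flatMap (H83.NT.succsL D.1.1 D.2.2)) ≤ P then
    (x.1.flatMap (H83.NT.succsL D.1.1 D.2.2),
      x.2 || !scdAccG_na D.2.1 (x.1.flatMap (H83.NT.succsL D.1.1 D.2.2)))
  else ([], x.2)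

private theorem scdAccG_pt_step (D : H83.NT.Desc) {α : Type} [Enc α] {P : α → ℕ}
    {x : α → List H83.NT.CL × Bool} (hP : PT P) (hx : PT x) :
    PT (fun a => scdAccG_step D (P a) (x a)) := by
  have h1 : PT (fun a => (x a).1.flatMap (H83.NT.succsL D.1.1 D.2.2)) :=
    PT.flatMap (f := fun (_ : α) (c : H83.NT.CL) => H83.NT.succsL D.1.1 D.2.2 c)
      ((scdAccG_pt_succs D.1.1 D.2.2).comp PT.snd) (PT.fst' hx)
  have h2 : PT (fun a => scdAccG_na D.2.1 ((x a).1.flatMap (H83.NT.succsL D.1.1 D.2.2))) :=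
    (scdAccG_pt_na D.2.1).comp h1
  unfold scdAccG_step
  refine PT.ite' (p := fun a => sz ((x a).1.flatMap (H83.NT.succsL D.1.1 D.2.2)) ≤ P a)
    (PT.le (PT.size' h1) hP) (PT.pair h1 (PT.or' (PT.snd' hx) (PT.not' h2)))
    (PT.pair (PT.const _) (PT.snd' hx))

private theorem scdAccG_sz_step (D : H83.NT.Desc) (P : ℕ) (x : List H83.NT.CL × Bool) :
    sz (scdAccG_step D P x) ≤ P + 5 := by
  unfold scdAccG_step
  split_ifs with h
  · have h1 := sz_bool_le (x.2 || !scdAccG_na D.2.1 (x.1.flatMap (H83.NT.succsL D.1.1 D.2.2)))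
    rw [sz_pair]
    simp only
    omega
  · have h1 := sz_bool_le x.2
    rw [sz_pair]
    simp only [sz_nil]
    omega

private theorem scdAccG_pt_start (k q : ℕ) : PT (fun u : List ℕ => H83.NT.startL k q u) := by
  unfold H83.NT.startL
  refine PT.pair (PT.const _) ?_
  refine PT.map (f := fun (u : List ℕ) (i : ℕ) =>
    if i = 0 then (([], (u.map Nat.succ).headI, (u.map Nat.succ).tail) : H83.NT.TC)
      else H83.NT.dT) ?_ (PT.const _)
  have hm : PT (fun z : List ℕ × ℕ => z.1.map Nat.succ) :=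
    PT.map (f := fun (_ : List ℕ × ℕ) (a : ℕ) => a + 1) (by fun_prop) PT.fst
  have hh : PT (fun z : List ℕ × ℕ => (z.1.map Nat.succ).headI) :=
    PT.congr (f := fun z : List ℕ × ℕ => (z.1.map Nat.succ).headD 0)
      (PT.headD hm (PT.const _)) fun z => by cases z.1 <;> rfl
  have ht : PT (fun z : List ℕ × ℕ => (z.1.map Nat.succ).tail) := PT.tail hm
  refine PT.ite' (p := fun z : List ℕ × ℕ => z.2 = 0) (by fun_prop) ?_ (PT.const _)
  exact PT.pair (PT.const _) (PT.pair hh ht)

/-- The start. -/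
private def scdAccG_st (D : H83.NT.Desc) (u : List ℕ) : List H83.NT.CL × Bool :=
  ([H83.NT.startL D.1.1 D.1.2 u], !scdAccG_na D.2.1 [H83.NT.startL D.1.1 D.1.2 u])

/-- The test. -/
private def scdAccG_g (D : H83.NT.Desc) (z : List ℕ × ℕ) : Bool :=
  ((scdAccG_step D z.2)^[z.2] (scdAccG_st D z.1)).2

private theorem scdAccG_pt_g (D : H83.NT.Desc) : PT (scdAccG_g D) := by
  have hs : PT (fun z : List ℕ × ℕ => [H83.NT.startL D.1.1 D.1.2 z.1]) :=
    PT.consList ((scdAccG_pt_start D.1.1 D.1.2).comp (by fun_prop)) (PT.const _)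
  have hs' : PT (fun z : List ℕ × ℕ => scdAccG_st D z.1) :=
    PT.pair hs (PT.not' ((scdAccG_pt_na D.2.1).comp hs))
  obtain ⟨R, hR⟩ := hs'.size_le
  unfold scdAccG_g
  refine PT.snd' (PT.iterate (f := fun (z : List ℕ × ℕ) x => scdAccG_step D z.2 x)
    ?_ (by fun_prop) hs' (R + Polynomial.X + 5) ?_)
  · exact scdAccG_pt_step D (by fun_prop) (by fun_prop)
  · intro z i _
    cases i with
    | zero =>
      have h1 := hR z
      simp only [Function.iterate_zero, id_eq, Polynomial.eval_add, Polynomial.eval_X,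
        Polynomial.eval_ofNat]
      omega
    | succ i =>
      rw [Function.iterate_succ_apply']
      refine (scdAccG_sz_step D z.2 _).trans ?_
      simp only [Polynomial.eval_add, Polynomial.eval_X, Polynomial.eval_ofNat]
      have h1 : sz z = 1 + sz z.1 + sz z.2 := rfl
      have h2 := sz_nat z.2
      omega

private theorem scdAccG_sound (D : H83.NT.Desc) (u : List ℕ) (P : ℕ) (i : ℕ) :
    (((scdAccG_step D P)^[i] (scdAccG_st D u)).1 = [] ∨
      ((scdAccG_step D P)^[i] (scdAccG_st D u)).1 =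
        H83.NT.confsL D.1.1 D.2.2 (H83.NT.startL D.1.1 D.1.2 u) i) ∧
      (((scdAccG_step D P)^[i] (scdAccG_st D u)).2 = true → ∃ s, AccL D u s) := by
  induction i with
  | zero =>
    refine ⟨Or.inr rfl, fun h => ⟨0, ?_⟩⟩
    have h1 : ¬ scdAccG_na D.2.1 [H83.NT.startL D.1.1 D.1.2 u] = true := by
      have h2 : (!scdAccG_na D.2.1 [H83.NT.startL D.1.1 D.1.2 u]) = true := h
      simpa using h2
    rw [scdAccG_na_iff, not_not] at h1
    exact h1
  | succ i ih =>
    obtain ⟨ih1, ih2⟩ := ih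
    rw [Function.iterate_succ_apply']
    set x := (scdAccG_step D P)^[i] (scdAccG_st D u) with hx
    have e : H83.NT.confsL D.1.1 D.2.2 (H83.NT.startL D.1.1 D.1.2 u) (i + 1) =
        (H83.NT.confsL D.1.1 D.2.2 (H83.NT.startL D.1.1 D.1.2 u) i).flatMap
          (H83.NT.succsL D.1.1 D.2.2) := rfl
    unfold scdAccG_step
    split_ifs with hc
    · simp only
      refine ⟨?_, fun h => ?_⟩
      · rcases ih1 with h1 | h1
        · left
          rw [h1]
          rfl
        · right
          rw [h1, e]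
      · rw [Bool.or_eq_true] at h
        rcases h with h | h
        · exact ih2 h
        · have h1 : ¬ scdAccG_na D.2.1 (x.1.flatMap (H83.NT.succsL D.1.1 D.2.2)) = true := by
            simpa using h
          rw [scdAccG_na_iff, not_not] at h1
          rcases ih1 with h2 | h2
          · rw [h2] at h1
            obtain ⟨c, hc', -⟩ := h1
            simp at hc'
          · rw [h2, ← e] at h1
            exact ⟨i + 1, h1⟩
    · exact ⟨Or.inl rfl, ih2⟩

/-- A configuration whose tapes have size at most `M`. -/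
private def scdAccG_small (M : ℕ) (c : H83.NT.CL) : Prop :=
  ∀ i, sz (c.2.getD i H83.NT.dT) ≤ M

private theorem scdAccG_sz_mv (m : ℕ) (t : H83.NT.TC) :
    sz (H83.NT.moveT (H83.NT.mvc m) t) ≤ sz t + 2 := by
  have h0 : sz t = 1 + sz t.1 + (1 + sz t.2.1 + sz t.2.2) := rfl
  have hl : ∀ l : List ℕ, sz l.tail + sz (l.headD 0) ≤ sz l + 1 := by
    intro l
    cases l with
    | nil => decide
    | cons a l =>
      have h1 : sz (a :: l) = 1 + sz a + sz l := rfl
      have h2 : (a :: l).tail = l := rfl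
      have h3 : (a :: l).headD 0 = a := rfl
      rw [h1, h2, h3]
      omega
  rw [scdAccG_mv_eq]
  unfold scdAccG_mv
  split_ifs with h1 h2
  · have e : sz ((t.1.tail, t.1.headD 0, t.2.1 :: t.2.2) : H83.NT.TC) =
      1 + sz t.1.tail + (1 + sz (t.1.headD 0) + (1 + sz t.2.1 + sz t.2.2)) := rfl
    have := hl t.1
    omega
  · omega
  · have e : sz ((t.2.1 :: t.1, t.2.2.headD 0, t.2.2.tail) : H83.NT.TC) =
      1 + (1 + sz t.2.1 + sz t.1) + (1 + sz (t.2.2.headD 0) + sz t.2.2.tail) := rfl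
    have := hl t.2.2
    omega

private theorem scdAccG_sz_getD (l : List ℕ) (i : ℕ) : sz (l.getD i 0) ≤ sz l := by
  rcases Nat.lt_or_ge i l.length with h | h
  · rw [List.getD_eq_getElem _ _ h]
    exact sz_mem_le (List.getElem_mem h)
  · rw [List.getD_eq_default _ _ h]
    have := sz_pos l
    have h1 : sz (0 : ℕ) = 1 := rfl
    omega

private theorem scdAccG_app_small (k : ℕ) (r : H83.NT.LR) (c : H83.NT.CL) (M : ℕ)
    (hM : sz H83.NT.dT ≤ M) (hc : scdAccG_small M c) :
    scdAccG_small (M + (sz r + 1)) (H83.NT.appL k r c) := by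
  intro i
  unfold H83.NT.appL
  simp only
  rcases Nat.lt_or_ge i (k + 1) with h | h
  · rw [H83.NT.getD_map_range h]
    refine (scdAccG_sz_mv _ _).trans ?_
    have h1 := hc i
    have h2 : sz ((c.2.getD i H83.NT.dT).1, r.2.2.1.getD i 0, (c.2.getD i H83.NT.dT).2.2) =
        1 + sz (c.2.getD i H83.NT.dT).1 + (1 + sz (r.2.2.1.getD i 0) +
          sz (c.2.getD i H83.NT.dT).2.2) := rfl
    have h3 : sz (c.2.getD i H83.NT.dT) = 1 + sz (c.2.getD i H83.NT.dT).1 +
        (1 + sz (c.2.getD i H83.NT.dT).2.1 + sz (c.2.getD i H83.NT.dT).2.2) := rfl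
    have h4 := scdAccG_sz_getD r.2.2.1 i
    have h5 : sz r = 1 + sz r.1 + (1 + sz r.2.1 + (1 + sz r.2.2.1 + sz r.2.2.2)) := rfl
    omega
  · rw [List.getD_eq_default _ _ (by simpa using h)]
    omega

private theorem scdAccG_sz_app (k : ℕ) (r : H83.NT.LR) (c : H83.NT.CL) (M : ℕ)
    (h : scdAccG_small M (H83.NT.appL k r c)) :
    sz (H83.NT.appL k r c) ≤ 2 + sz r + (k + 1) * (1 + M) := by
  have h1 : sz (H83.NT.appL k r c) = 1 + sz r.2.1 + sz (H83.NT.appL k r c).2 := rfl
  have h5 : sz r = 1 + sz r.1 + (1 + sz r.2.1 + (1 + sz r.2.2.1 + sz r.2.2.2)) := rfl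
  have hlen : (H83.NT.appL k r c).2.length = k + 1 := by
    unfold H83.NT.appL
    simp
  have h2 := sz_list_le (H83.NT.appL k r c).2 M (by
    intro t ht
    obtain ⟨i, hi, rfl⟩ := List.mem_iff_getElem.1 ht
    have := h i
    rwa [List.getD_eq_getElem _ _ hi] at this)
  rw [hlen] at h2
  omega

private theorem scdAccG_mem_succs {k : ℕ} {rs : List H83.NT.LR} {c c' : H83.NT.CL}
    (h : c' ∈ H83.NT.succsL k rs c) : ∃ r ∈ rs, c' = H83.NT.appL k r c := by
  unfold H83.NT.succsL at h
  obtain ⟨r, hr, h⟩ := List.mem_flatMap.1 h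
  refine ⟨r, hr, ?_⟩
  split_ifs at h
  · simpa using h
  · simp at h

private theorem scdAccG_length_succs (k : ℕ) (rs : List H83.NT.LR) (c : H83.NT.CL) :
    (H83.NT.succsL k rs c).length ≤ rs.length := by
  unfold H83.NT.succsL
  induction rs with
  | nil => simp
  | cons r rs ih =>
    rw [List.flatMap_cons, List.length_append, List.length_cons]
    have : (if H83.NT.MatchL k r c then [H83.NT.appL k r c] else []).length ≤ 1 := by
      split_ifs <;> simp
    omega

private theorem scdAccG_length_flatMap {β γ : Type} (f : β → List γ) (l : List β) (B : ℕ)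
    (h : ∀ b ∈ l, (f b).length ≤ B) : (l.flatMap f).length ≤ l.length * B := by
  induction l with
  | nil => simp
  | cons b l ih =>
    rw [List.flatMap_cons, List.length_append, List.length_cons, Nat.succ_mul]
    have h1 := h b (by simp)
    have h2 := ih fun c hc => h c (by simp [hc])
    omega

private theorem scdAccG_length_confs (k : ℕ) (rs : List H83.NT.LR) (c : H83.NT.CL) (s : ℕ) :
    (H83.NT.confsL k rs c s).length ≤ rs.length ^ s := by
  induction s with
  | zero => exact le_of_eq (by simp [H83.NT.confsL])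
  | succ s ih =>
    have e : H83.NT.confsL k rs c (s + 1) =
      (H83.NT.confsL k rs c s).flatMap (H83.NT.succsL k rs) := rfl
    rw [e, pow_succ]
    exact (scdAccG_length_flatMap _ _ rs.length fun b _ => scdAccG_length_succs k rs b).trans
      (Nat.mul_le_mul_right _ ih)

private theorem scdAccG_sz_rule {rs : List H83.NT.LR} {r : H83.NT.LR} (h : r ∈ rs) :
    sz r ≤ sz rs := sz_mem_le h

private theorem scdAccG_confs_small (k : ℕ) (rs : List H83.NT.LR) (c : H83.NT.CL) (M : ℕ)
    (hM : sz H83.NT.dT ≤ M) (hc : scdAccG_small M c) (s : ℕ) :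
    ∀ c' ∈ H83.NT.confsL k rs c s, scdAccG_small (M + s * (sz rs + 1)) c' := by
  induction s with
  | zero =>
    intro c' hc'
    have e : c' = c := by simpa [H83.NT.confsL] using hc'
    subst e
    intro i
    have := hc i
    omega
  | succ s ih =>
    intro c' hc'
    have e : H83.NT.confsL k rs c (s + 1) =
      (H83.NT.confsL k rs c s).flatMap (H83.NT.succsL k rs) := rfl
    rw [e] at hc'
    obtain ⟨b, hb, hc'⟩ := List.mem_flatMap.1 hc'
    obtain ⟨r, hr, rfl⟩ := scdAccG_mem_succs hc'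
    have h1 := scdAccG_app_small k r b _ (hM.trans (Nat.le_add_right _ _)) (ih b hb)
    have h2 := scdAccG_sz_rule hr
    intro i
    have h3 := h1 i
    rw [Nat.succ_mul]
    omega

private theorem scdAccG_sz_confs (k : ℕ) (rs : List H83.NT.LR) (c : H83.NT.CL) (M : ℕ)
    (hM : sz H83.NT.dT ≤ M) (hc : scdAccG_small M c) (s : ℕ) :
    sz (H83.NT.confsL k rs c s) ≤ 1 + rs.length ^ s * (1 + (sz c + 2 + sz rs +
      (k + 1) * (1 + (M + s * (sz rs + 1))))) := by
  refine (sz_list_le _ (sz c + 2 + sz rs + (k + 1) * (1 + (M + s * (sz rs + 1)))) ?_).trans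
    (Nat.add_le_add_left (Nat.mul_le_mul_right _ (scdAccG_length_confs k rs c s)) _)
  intro c' hc'
  cases s with
  | zero =>
    have e : c' = c := by simpa [H83.NT.confsL] using hc'
    subst e
    omega
  | succ s =>
    have hsm := scdAccG_confs_small k rs c M hM hc (s + 1) c' hc'
    have e : H83.NT.confsL k rs c (s + 1) =
      (H83.NT.confsL k rs c s).flatMap (H83.NT.succsL k rs) := rfl
    rw [e] at hc'
    obtain ⟨b, hb, hc'⟩ := List.mem_flatMap.1 hc'
    obtain ⟨r, hr, rfl⟩ := scdAccG_mem_succs hc'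
    have h1 := scdAccG_sz_app k r b _ hsm
    have h2 := scdAccG_sz_rule hr
    omega

private theorem scdAccG_sz_map_succ (u : List ℕ) : sz (u.map Nat.succ) ≤ 3 * sz u := by
  induction u with
  | nil => decide
  | cons a u ih =>
    have h1 : sz (a :: u) = 1 + sz a + sz u := rfl
    have h2 : sz ((a :: u).map Nat.succ) = 1 + sz a.succ + sz (u.map Nat.succ) := rfl
    have h3 := sz_nat a
    have h4 := sz_nat a.succ
    rw [h1, h2]
    omega

private theorem scdAccG_sz_dT : sz H83.NT.dT = 5 := rfl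

private theorem scdAccG_start_small (k q : ℕ) (u : List ℕ) :
    scdAccG_small (3 * sz u + 5) (H83.NT.startL k q u) := by
  intro i
  unfold H83.NT.startL
  simp only
  rcases Nat.lt_or_ge i (k + 1) with h | h
  · rw [H83.NT.getD_map_range h]
    by_cases hi : i = 0
    · rw [if_pos hi]
      have h1 : sz (([], (u.map Nat.succ).headI, (u.map Nat.succ).tail) : H83.NT.TC) =
          1 + 1 + (1 + sz (u.map Nat.succ).headI + sz (u.map Nat.succ).tail) := rfl
      rw [h1]
      have h2 := scdAccG_sz_map_succ u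
      have h3 : sz (u.map Nat.succ).headI + sz (u.map Nat.succ).tail ≤
          sz (u.map Nat.succ) + 1 := by
        cases u with
        | nil => decide
        | cons a u =>
          have h4 : sz ((a :: u).map Nat.succ) = 1 + sz a.succ + sz (u.map Nat.succ) := rfl
          have h5 : ((a :: u).map Nat.succ).headI = a.succ := rfl
          have h6 : ((a :: u).map Nat.succ).tail = u.map Nat.succ := rfl
          rw [h4, h5, h6]
          omega
      omega
    · rw [if_neg hi, scdAccG_sz_dT]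
      omega
  · rw [List.getD_eq_default _ _ (by simpa using h), scdAccG_sz_dT]
    omega

private theorem scdAccG_sz_start (k q : ℕ) (u : List ℕ) :
    sz (H83.NT.startL k q u) ≤ 2 + sz q + (k + 1) * (1 + (3 * sz u + 5)) := by
  have h0 := scdAccG_start_small k q u
  have h1 : sz (H83.NT.startL k q u) = 1 + sz q + sz (H83.NT.startL k q u).2 := rfl
  have hlen : (H83.NT.startL k q u).2.length = k + 1 := by
    unfold H83.NT.startL
    simp
  have h2 := sz_list_le (H83.NT.startL k q u).2 (3 * sz u + 5) (by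
    intro t ht
    obtain ⟨i, hi, rfl⟩ := List.mem_iff_getElem.1 ht
    have := h0 i
    rwa [List.getD_eq_getElem _ _ hi] at this)
  rw [hlen] at h2
  omega

private theorem scdAccG_run (D : H83.NT.Desc) (u : List ℕ) (P T : ℕ)
    (hP : ∀ s ≤ T, sz (H83.NT.confsL D.1.1 D.2.2 (H83.NT.startL D.1.1 D.1.2 u) s) ≤ P)
    (i : ℕ) (hi : i ≤ T) :
    ((scdAccG_step D P)^[i] (scdAccG_st D u)).1 =
      H83.NT.confsL D.1.1 D.2.2 (H83.NT.startL D.1.1 D.1.2 u) i := by
  induction i with
  | zero => rfl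
  | succ i ih =>
    rw [Function.iterate_succ_apply']
    have h0 := ih (by omega)
    have e : H83.NT.confsL D.1.1 D.2.2 (H83.NT.startL D.1.1 D.1.2 u) (i + 1) =
        (H83.NT.confsL D.1.1 D.2.2 (H83.NT.startL D.1.1 D.1.2 u) i).flatMap
          (H83.NT.succsL D.1.1 D.2.2) := rfl
    have h1 := hP (i + 1) hi
    generalize (scdAccG_step D P)^[i] (scdAccG_st D u) = x at h0 ⊢
    unfold scdAccG_step
    rw [h0, ← e, if_pos h1]

private theorem scdAccG_hit (D : H83.NT.Desc) (u : List ℕ) (P T : ℕ)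
    (hP : ∀ s ≤ T, sz (H83.NT.confsL D.1.1 D.2.2 (H83.NT.startL D.1.1 D.1.2 u) s) ≤ P)
    (hacc : AccL D u T) : ((scdAccG_step D P)^[T] (scdAccG_st D u)).2 = true := by
  have h1 : ¬ scdAccG_na D.2.1
      (H83.NT.confsL D.1.1 D.2.2 (H83.NT.startL D.1.1 D.1.2 u) T) = true := by
    rw [scdAccG_na_iff, not_not]
    exact hacc
  cases T with
  | zero =>
    have h2 : (!scdAccG_na D.2.1 [H83.NT.startL D.1.1 D.1.2 u]) = true := by
      have h3 : ¬ scdAccG_na D.2.1 [H83.NT.startL D.1.1 D.1.2 u] = true := h1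
      simpa using h3
    exact h2
  | succ T =>
    rw [Function.iterate_succ_apply']
    have h0 := scdAccG_run D u P (T + 1) hP T (by omega)
    have e : H83.NT.confsL D.1.1 D.2.2 (H83.NT.startL D.1.1 D.1.2 u) (T + 1) =
        (H83.NT.confsL D.1.1 D.2.2 (H83.NT.startL D.1.1 D.1.2 u) T).flatMap
          (H83.NT.succsL D.1.1 D.2.2) := rfl
    have h2 := hP (T + 1) le_rfl
    generalize (scdAccG_step D P)^[T] (scdAccG_st D u) = x at h0 ⊢
    unfold scdAccG_step
    rw [h0, ← e, if_pos h2]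
    simp only [Bool.or_eq_true]
    right
    simpa using h1

private theorem scdAccG_stay (D : H83.NT.Desc) (P : ℕ) (x : List H83.NT.CL × Bool)
    (h : x.2 = true) (i : ℕ) : ((scdAccG_step D P)^[i] x).2 = true := by
  induction i with
  | zero => exact h
  | succ i ih =>
    rw [Function.iterate_succ_apply']
    generalize (scdAccG_step D P)^[i] x = y at ih ⊢
    unfold scdAccG_step
    split_ifs
    · simp only [ih, Bool.true_or]
    · exact ih

private theorem scdAccG_lin (a X P : ℕ) (h : 2 ^ (a + X) ≤ P) : 1 + 2 ^ a * X ≤ P := by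
  have h1 : X + 1 ≤ 2 ^ X := Nat.lt_two_pow_self
  have h2 : 1 ≤ 2 ^ a := Nat.one_le_two_pow
  have h3 : 2 ^ a * (X + 1) ≤ 2 ^ (a + X) := by
    rw [pow_add]
    exact Nat.mul_le_mul_left _ h1
  have h4 : 2 ^ a * (X + 1) = 2 ^ a * X + 2 ^ a := by ring
  omega

/-- Acceptance is verified deterministically in polynomial time in an exponential padding. -/
theorem exists_acc (D : Pool.Agent.H83.NT.Desc) : ∃ g : List ℕ × ℕ → Bool, PT g ∧
    (∀ u P, g (u, P) = true → ∃ s, AccL D u s) ∧
    ∃ q : Polynomial ℕ, ∀ u s P, AccL D u s → 2 ^ q.eval (s + sz u) ≤ P → g (u, P) = true := by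
  refine ⟨scdAccG_g D, scdAccG_pt_g D, fun u P h => (scdAccG_sound D u P P).2 h, ?_⟩
  obtain ⟨K, hK⟩ : ∃ K, K = D.1.1 + 1 := ⟨_, rfl⟩
  obtain ⟨S, hS⟩ : ∃ S, S = sz D.2.2 + 1 := ⟨_, rfl⟩
  refine ⟨Polynomial.C (D.2.2.length + 2 * K * (6 + S)) * Polynomial.X +
    Polynomial.C (5 + sz D.1.2 + sz D.2.2 + 12 * K), fun u T P hacc hP => ?_⟩
  have key : ∀ s ≤ T,
      sz (H83.NT.confsL D.1.1 D.2.2 (H83.NT.startL D.1.1 D.1.2 u) s) ≤ P := by
    intro s hs
    have h1 := scdAccG_sz_confs D.1.1 D.2.2 (H83.NT.startL D.1.1 D.1.2 u) (3 * sz u + 5)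
      (by rw [scdAccG_sz_dT]; omega) (scdAccG_start_small _ _ u) s
    refine h1.trans ?_
    have h2 : D.2.2.length ^ s ≤ 2 ^ (D.2.2.length * T) := by
      calc D.2.2.length ^ s ≤ (2 ^ D.2.2.length) ^ s :=
            Nat.pow_le_pow_left Nat.lt_two_pow_self.le _
        _ = 2 ^ (D.2.2.length * s) := by rw [← pow_mul]
        _ ≤ 2 ^ (D.2.2.length * T) :=
          Nat.pow_le_pow_right (by norm_num) (Nat.mul_le_mul_left _ hs)
    have h3 := scdAccG_sz_start D.1.1 D.1.2 u
    rw [← hK] at h3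
    rw [← hK, ← hS]
    obtain ⟨X, hX⟩ : ∃ X, X = 1 + (sz (H83.NT.startL D.1.1 D.1.2 u) + 2 + sz D.2.2 +
      K * (1 + (3 * sz u + 5 + s * S))) := ⟨_, rfl⟩
    rw [← hX]
    refine (Nat.add_le_add_left (Nat.mul_le_mul_right _ h2) 1).trans ?_
    refine scdAccG_lin _ _ _ (le_trans (Nat.pow_le_pow_right (by norm_num) ?_) hP)
    simp only [Polynomial.eval_add, Polynomial.eval_mul, Polynomial.eval_C, Polynomial.eval_X]
    have h4 : s * S ≤ T * S := Nat.mul_le_mul_right _ hs
    have h5 : X ≤ 5 + sz D.1.2 + sz D.2.2 + 12 * K + (6 * K * sz u + K * (T * S)) := by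
      rw [hX]
      have e1 : K * (1 + (3 * sz u + 5 + s * S)) = 6 * K + 3 * K * sz u + K * (s * S) := by ring
      have e2 : K * (1 + (3 * sz u + 5)) = 6 * K + 3 * K * sz u := by ring
      have e3 : K * (s * S) ≤ K * (T * S) := Nat.mul_le_mul_left _ h4
      have e4 : 6 * K * sz u = 3 * K * sz u + 3 * K * sz u := by ring
      rw [e1]
      rw [e2] at h3
      omega
    have h6 : (D.2.2.length + 2 * K * (6 + S)) * (T + sz u) =
        D.2.2.length * T + D.2.2.length * sz u + 12 * K * T + 12 * K * sz u + 2 * K * (T * S) +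
          2 * K * S * sz u := by ring
    have h7 : 6 * K * sz u ≤ 12 * K * sz u := by
      refine Nat.mul_le_mul_right _ (Nat.mul_le_mul_right _ (by norm_num))
    have h8 : K * (T * S) ≤ 2 * K * (T * S) := by
      refine Nat.mul_le_mul_right _ (by omega)
    rw [h6]
    omega
  have hTP : T ≤ P := by
    refine le_trans ?_ hP
    refine le_trans ?_ Nat.lt_two_pow_self.le
    simp only [Polynomial.eval_add, Polynomial.eval_mul, Polynomial.eval_C, Polynomial.eval_X]
    have hK1 : 1 ≤ K := by omega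
    have h1 : 1 ≤ D.2.2.length + 2 * K * (6 + S) := by
      have h2 : 1 * (6 + S) ≤ 2 * K * (6 + S) := Nat.mul_le_mul_right _ (by omega)
      omega
    have h2 : 1 * (T + sz u) ≤ (D.2.2.length + 2 * K * (6 + S)) * (T + sz u) :=
      Nat.mul_le_mul_right _ h1
    omega
  have h9 := scdAccG_hit D u P T key hacc
  show ((scdAccG_step D P)^[P] (scdAccG_st D u)).2 = true
  obtain ⟨j, hj⟩ : ∃ j, P = j + T := ⟨P - T, by omega⟩
  have e9 : (scdAccG_step D P)^[P] (scdAccG_st D u) =
      (scdAccG_step D P)^[j] ((scdAccG_step D P)^[T] (scdAccG_st D u)) := by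
    conv_lhs => rw [hj]
    rw [Function.iterate_add_apply]
    rw [← hj]
  rw [e9]
  exact scdAccG_stay D P _ h9 j

end Pool.Agent.H83.SCD
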