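import Pool.Agent.H83.SCD.Ver

/-!
Scales, deterministic version: computability of the time bounds `tX`.
-/

namespace Pool.Agent.H83.SCD

open Pool.Agent.Lead.NTM Pool.Agent.H71.NT Pool.Agent.H79.Cx Encodable Denumerable
open Pool.Agent.H83.NT (Pl words mem_words accv AL AL_iff AccL accv_iff Coding exists_coding P3
  IsPi3 IndexSet exists_machine_of_desc mem_NTIMEPol_iff exists_time_bound closed_iff)
open Pool.Agent.H27.LD (aa ss uu mk3 inp EV exq Slowly primrec_aa primrec_ss primrec_uu cp_exq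
  cp_comp cp_and cp_or cp_not cp_le cp_lt cp_bex cp_ball cp_congr cp_ite)
open Pool.Agent.H83.SCL (Scale UPol Near sS sS_succ lv fm fm_succ lv_le computable_sS computable_fm)

private theorem scdComp_WR (Z : Dat) : ComputablePred fun q : ℕ × ℕ => Z.WR q.1 q.2 := by
  have h1 : Computable fun q : ℕ × ℕ => (inp q.1 (aa q.2) (ss q.2), uu q.2) := by
    have h2 := Primrec₂.natPair.comp (α := ℕ × ℕ) Primrec.fst (Primrec₂.natPair.comp
      (primrec_aa.comp Primrec.snd) (primrec_ss.comp Primrec.snd))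
    exact (h2.pair (primrec_uu.comp Primrec.snd)).to_comp
  exact cp_and (cp_comp Z.hEc h1) (cp_comp (cp_WV Z) Computable.snd)

private theorem scdComp_lv : Primrec lv :=
  Primrec.nat_add.comp Primrec.id (primrec_kk.comp primrec_ss)

private theorem scdComp_val (Z : Dat) : Computable (val Z.G Z.σ) :=
  Z.Gc.comp (Primrec.nat_add.comp scdComp_lv (Primrec.const 2)).to_comp (computable_sS Z.σc)

private theorem scdComp_ExD (Z : Dat) : ComputablePred fun q : ℕ × ℕ => Z.ExD q.1 q.2 := by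
  have hsc := computable_sS Z.σc
  have hn : Computable fun q : (ℕ × ℕ) × ℕ => q.2 := Computable.snd
  have he : Computable fun q : (ℕ × ℕ) × ℕ => q.1.1 := Computable.fst.comp Computable.fst
  have hr : Computable fun q : (ℕ × ℕ) × ℕ => q.1.2 := Computable.snd.comp Computable.fst
  have h1 := cp_comp cp_exq ((he.pair hn).pair ((Z.Gc.comp hr hn).pair (Z.Gc.comp he hn)))
  have h2 := cp_and (cp_le (hsc.comp hr) hn) h1
  have h3 := cp_bex (p := fun (q : ℕ × ℕ) n => sS Z.σ q.2 ≤ n ∧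
    exq q.1 n (Z.G q.2 n) (Z.G q.1 n)) h2
    (hsc.comp (Computable.succ.comp Computable.snd))
  refine cp_congr h3 fun q => ?_
  unfold Dat.ExD
  constructor
  · rintro ⟨n, h4, h5, h6⟩
    exact ⟨n, h5, h4, h6⟩
  · rintro ⟨n, h4, h5, h6⟩
    exact ⟨n, h5, h4, h6⟩

private theorem scdComp_ExR (Z : Dat) : ComputablePred fun q : ℕ × ℕ => Z.ExR q.1 q.2 := by
  have hsc := computable_sS Z.σc
  have hn : Computable fun q : (ℕ × ℕ) × ℕ => q.2 := Computable.snd
  have he : Computable fun q : (ℕ × ℕ) × ℕ => q.1.1 := Computable.fst.comp Computable.fst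
  have hr : Computable fun q : (ℕ × ℕ) × ℕ => q.1.2 := Computable.snd.comp Computable.fst
  have h1 := cp_comp cp_exq ((he.pair hn).pair ((Primrec.nat_max.to_comp.comp (Z.Gc.comp hr hn)
    ((scdComp_val Z).comp hr)).pair (Z.Gc.comp he hn)))
  have h2 := cp_and (cp_le (hsc.comp hr) hn) h1
  have h3 := cp_bex (p := fun (q : ℕ × ℕ) n => sS Z.σ q.2 ≤ n ∧
    exq q.1 n (max (Z.G q.2 n) (val Z.G Z.σ q.2)) (Z.G q.1 n)) h2
    (hsc.comp (Computable.succ.comp Computable.snd))
  refine cp_congr h3 fun q => ?_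
  unfold Dat.ExR
  constructor
  · rintro ⟨n, h4, h5, h6⟩
    exact ⟨n, h5, h4, h6⟩
  · rintro ⟨n, h4, h5, h6⟩
    exact ⟨n, h5, h4, h6⟩

private theorem scdComp_Act (Z : Dat) :
    ComputablePred fun q : (ℕ × ℕ) × ℕ => Z.Act q.1.1 q.1.2 q.2 := by
  have hx : Computable fun q : (ℕ × ℕ) × ℕ => q.1.1 := Computable.fst.comp Computable.fst
  have he : Computable fun q : (ℕ × ℕ) × ℕ => q.1.2 := Computable.snd.comp Computable.fst
  have hr : Computable fun q : (ℕ × ℕ) × ℕ => q.2 := Computable.snd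
  have hW := cp_comp (scdComp_WR Z) (hx.pair hr)
  exact cp_and (cp_lt (Computable.const 0) hr)
    (cp_or (cp_and (cp_not hW) (cp_comp (scdComp_ExD Z) (he.pair hr)))
      (cp_and hW (cp_and (cp_lt he (primrec_aa.to_comp.comp hr))
        (cp_comp (scdComp_ExR Z) (he.pair hr)))))

private theorem scdComp_Blk (Z : Dat) :
    ComputablePred fun q : (ℕ × ℕ) × ℕ => Z.Blk q.1.1 q.1.2 q.2 := by
  have hr : Computable fun q : (ℕ × ℕ) × ℕ => q.2 := Computable.snd
  have h1 : ComputablePred fun q : ((ℕ × ℕ) × ℕ) × ℕ => ¬ Z.Act q.1.1.1 q.1.1.2 q.2 :=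
    cp_not (cp_comp (scdComp_Act Z) ((Computable.fst.comp Computable.fst).pair Computable.snd))
  exact cp_and (scdComp_Act Z)
    (cp_ball (p := fun (q : (ℕ × ℕ) × ℕ) r' => ¬ Z.Act q.1.1 q.1.2 r') h1 hr)

private theorem scdComp_Ra (Z : Dat) : ComputablePred fun q : ℕ × ℕ => Z.Ra q.1 q.2 := by
  have h1 : ComputablePred fun q : (ℕ × ℕ) × ℕ => ¬ Z.Blk q.1.1 q.2 q.1.2 :=
    cp_not (cp_comp (scdComp_Blk Z) (((Computable.fst.comp Computable.fst).pair
      Computable.snd).pair (Computable.snd.comp Computable.fst)))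
  exact cp_and (scdComp_WR Z) (cp_ball (p := fun (q : ℕ × ℕ) e => ¬ Z.Blk q.1 e q.2) h1
    (primrec_aa.to_comp.comp Computable.snd))

private theorem scdComp_OK (Z : Dat) :
    ComputablePred fun q : (ℕ × ℕ) × ℕ => Z.OK q.1.1 q.1.2 q.2 := by
  have hx : Computable fun q : ((ℕ × ℕ) × ℕ) × ℕ => q.1.1.1 :=
    Computable.fst.comp (Computable.fst.comp Computable.fst)
  have hr : Computable fun q : ((ℕ × ℕ) × ℕ) × ℕ => q.1.2 := Computable.snd.comp Computable.fst
  have he : Computable fun q : ((ℕ × ℕ) × ℕ) × ℕ => q.2 := Computable.snd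
  have h1 : ComputablePred fun q : ((ℕ × ℕ) × ℕ) × ℕ =>
      ¬ Z.Blk q.1.1.1 q.2 q.1.2 ∧ ¬ Z.Blk q.1.1.1 q.2 (q.1.2 + 1) :=
    cp_and (cp_not (cp_comp (scdComp_Blk Z) ((hx.pair he).pair hr)))
      (cp_not (cp_comp (scdComp_Blk Z) ((hx.pair he).pair (Computable.succ.comp hr))))
  have hj : Computable fun q : (ℕ × ℕ) × ℕ => q.1.2 := Computable.snd.comp Computable.fst
  exact cp_and (cp_le hj Computable.snd)
    (cp_ball (p := fun (q : (ℕ × ℕ) × ℕ) e =>
      ¬ Z.Blk q.1.1 e q.2 ∧ ¬ Z.Blk q.1.1 e (q.2 + 1)) h1 hj)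

private theorem scdComp_LC (Z : Dat) :
    ComputablePred fun q : (ℕ × ℕ) × ℕ => Z.LC q.1.1 q.1.2 q.2 := by
  have hsc := computable_sS Z.σc
  have hx : Computable fun q : (ℕ × ℕ) × ℕ => q.1.1 := Computable.fst.comp Computable.fst
  have hn : Computable fun q : (ℕ × ℕ) × ℕ => q.1.2 := Computable.snd.comp Computable.fst
  have hz1 : Computable fun q : (ℕ × ℕ) × ℕ => q.2.unpair.1 :=
    Computable.fst.comp (Primrec.unpair.to_comp.comp Computable.snd)
  have hn' : Computable fun q : (ℕ × ℕ) × ℕ => q.2.unpair.2 :=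
    Computable.snd.comp (Primrec.unpair.to_comp.comp Computable.snd)
  have hj : Computable fun q : (ℕ × ℕ) × ℕ => q.2.unpair.1.unpair.1 :=
    Computable.fst.comp (Primrec.unpair.to_comp.comp hz1)
  have hr : Computable fun q : (ℕ × ℕ) × ℕ => q.2.unpair.1.unpair.2 :=
    Computable.snd.comp (Primrec.unpair.to_comp.comp hz1)
  exact cp_and (cp_le hn' hn) (cp_and (cp_le (hsc.comp hr) hn')
    (cp_and (cp_lt hn' (hsc.comp (Computable.succ.comp hr)))
      (cp_comp (scdComp_OK Z) ((hx.pair hj).pair hr))))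

theorem computable_tX (Z : Dat) : Computable₂ Z.tX := by
  classical
  have hsc := computable_sS Z.σc
  have hx : Computable fun a : (ℕ × ℕ) × ℕ => a.1.1 := Computable.fst.comp Computable.fst
  have hn : Computable fun a : (ℕ × ℕ) × ℕ => a.1.2 := Computable.snd.comp Computable.fst
  have hz : Computable fun a : (ℕ × ℕ) × ℕ => a.2 := Computable.snd
  have hz1 : Computable fun a : (ℕ × ℕ) × ℕ => a.2.unpair.1 :=
    Computable.fst.comp (Primrec.unpair.to_comp.comp hz)
  have hn' : Computable fun a : (ℕ × ℕ) × ℕ => a.2.unpair.2 :=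
    Computable.snd.comp (Primrec.unpair.to_comp.comp hz)
  have hj : Computable fun a : (ℕ × ℕ) × ℕ => a.2.unpair.1.unpair.1 :=
    Computable.fst.comp (Primrec.unpair.to_comp.comp hz1)
  have h1 : Computable₂ fun (q : ℕ × ℕ) (z : ℕ) =>
      if Z.LC q.1 q.2 z then Z.G z.unpair.1.unpair.1 z.unpair.2 else 0 :=
    cp_ite (scdComp_LC Z) (Z.Gc.comp hj hn') (Computable.const 0)
  have h2 : Computable₂ fun (q : ℕ × ℕ) (r : ℕ) =>
      if sS Z.σ r ≤ q.2 ∧ Z.Ra q.1 r then val Z.G Z.σ r else 0 :=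
    cp_ite (cp_and (cp_le (hsc.comp hz) hn) (cp_comp (scdComp_Ra Z) (hx.pair hz)))
      ((scdComp_val Z).comp hz) (Computable.const 0)
  have hN : Computable fun q : ℕ × ℕ => Nat.pair (Nat.pair q.2 q.2) q.2 + 1 :=
    Computable.succ.comp (Primrec₂.natPair.to_comp.comp
      (Primrec₂.natPair.to_comp.comp Computable.snd Computable.snd) Computable.snd)
  have h3 := computable_fm h1 hN
  have h4 := computable_fm h2 (Computable.succ.comp (Computable.snd (α := ℕ) (β := ℕ)))
  exact Primrec.nat_max.to_comp.comp (Z.Gc.comp (Computable.const 0) Computable.snd)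
    (Primrec.nat_max.to_comp.comp h3 h4)

end Pool.Agent.H83.SCD
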