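import Pool.Agent.H83.SCL.Basic

/-!
Scales of time bounds, deterministic version: the data of the construction of the time bounds
`tX x`. The only change against `SCL` is that the time bound is raised by two levels more than the
bound of the test.
-/

namespace Pool.Agent.H83.SCD

open Pool.Agent.Lead.NTM
open Pool.Agent.H71.NT (kk dd IsTime)
open Pool.Agent.H83.NT (Pl words accv P3 IsPi3 IndexSet)
open Pool.Agent.H27.LD (aa ss uu mk3 inp EV exq Slowly)
open Pool.Agent.H83.SCL (Scale UPol Near sS sS_succ lv fm fm_succ)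

/-- The bound of the test at a stage. -/
def tv (G : ℕ → ℕ → ℕ) (σ : ℕ → ℕ) (r : ℕ) : ℕ := G (lv r) (sS σ r)

/-- The value of a stage. -/
def val (G : ℕ → ℕ → ℕ) (σ : ℕ → ℕ) (r : ℕ) : ℕ := G (lv r + 2) (sS σ r)

/-- The part of the test at the stage `r` which does not depend on `x`: the machine `dd (ss r)`
accepts `1ⁿ`, `n = sS σ r`, within `tv r` steps. -/
def WV (G : ℕ → ℕ → ℕ) (σ : ℕ → ℕ) (r : ℕ) : Prop :=
  0 < r ∧ ∃ h : List ℕ, h.length ≤ tv G σ r ∧
    (dd (ss r)).valid (sS σ r) h = true ∧ (dd (ss r)).acc h = true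

/-- The data of the construction. -/
structure Dat where
  /-- the scale -/
  G : ℕ → ℕ → ℕ
  /-- the slow function -/
  h : ℕ → ℕ
  /-- the running time of the machine of the chain -/
  σ : ℕ → ℕ
  /-- the honest machine of the scale -/
  D : Pool.Agent.H71.NT.Desc
  pD : Polynomial ℕ
  /-- the machine of the chain -/
  D2 : Pool.Agent.H71.NT.Desc
  /-- the event machine -/
  E : Pool.Agent.H71.NT.Desc
  /-- the matrix of the `Π⁰₃` set -/
  W : P3
  Gc : Computable₂ G
  Gm : ∀ i, Monotone (G i)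
  G2 : ∀ n, n + 2 ≤ G 0 n
  Gsq : ∀ i n, G i n ^ 2 ≤ G (i + 1) n
  hD : ∀ i n m, (∃ y : List ℕ, D.valid (Nat.pair (Nat.pair i n) m) y = true ∧ D.acc y = true) ↔
    m = G i n
  hDp : ∀ i n, ∃ y : List ℕ, y.length ≤ pD.eval (i + G i n) ∧
    D.valid (Nat.pair (Nat.pair i n) (G i n)) y = true ∧ D.acc y = true
  hm : Monotone h
  h1 : ∀ n, 1 ≤ h n
  σc : Computable σ
  hσ : IsTime D2 σ
  hσh : ∀ r n, 2 * r + 6 ≤ h (σ (Nat.pair r n) + 2)
  hσG : ∀ r n, G (2 * r + 2) n ≤ σ (Nat.pair r n)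
  hE : ∀ x a s, (∀ b ≤ s, ∃ c, W.R x a b c = false) ↔
    ∃ y : List ℕ, E.valid (inp x a s) y = true ∧ E.acc y = true
  hEu : ∀ (z : ℕ) (y y' : List ℕ), E.valid z y = true → E.acc y = true → E.valid z y' = true →
    E.acc y' = true → y.length = y'.length
  hEc : ComputablePred fun q : ℕ × ℕ =>
    ∃ y : List ℕ, y.length = q.2 ∧ E.valid q.1 y = true ∧ E.acc y = true

namespace Dat

variable (Z : Dat)

/-- The test at the stage `r`. -/
def WR (x r : ℕ) : Prop := EV Z.E x r ∧ WV Z.G Z.σ r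

/-- The requirement `e` exploits the standard time bound in the block `r`. -/
def ExD (e r : ℕ) : Prop :=
  ∃ n, sS Z.σ r ≤ n ∧ n < sS Z.σ (r + 1) ∧ exq e n (Z.G r n) (Z.G e n)

/-- The requirement `e` exploits the raised time bound in the block `r`. -/
def ExR (e r : ℕ) : Prop :=
  ∃ n, sS Z.σ r ≤ n ∧ n < sS Z.σ (r + 1) ∧
    exq e n (max (Z.G r n) (val Z.G Z.σ r)) (Z.G e n)

/-- The requirement `e` is active in the block `r`. -/
def Act (x e r : ℕ) : Prop :=
  0 < r ∧ ((¬ Z.WR x r ∧ Z.ExD e r) ∨ (Z.WR x r ∧ e < aa r ∧ Z.ExR e r))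

/-- The requirement `e` acts in the block `r` (for the first and only time). -/
def Blk (x e r : ℕ) : Prop := Z.Act x e r ∧ ∀ r' < r, ¬ Z.Act x e r'

/-- The time bound is raised at the stage `r`. -/
def Ra (x r : ℕ) : Prop := Z.WR x r ∧ ∀ e < aa r, ¬ Z.Blk x e r

/-- The level `j` is allowed in the block `r`: it is at most `r`, and no requirement `< j` acts in
this block or in the next one. -/
def OK (x j r : ℕ) : Prop := j ≤ r ∧ ∀ e < j, ¬ Z.Blk x e r ∧ ¬ Z.Blk x e (r + 1)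

/-- The number `z = ((j, r), n')` gives a contribution to the time bound at `n`. -/
def LC (x n z : ℕ) : Prop :=
  z.unpair.2 ≤ n ∧ sS Z.σ z.unpair.1.unpair.2 ≤ z.unpair.2 ∧
    z.unpair.2 < sS Z.σ (z.unpair.1.unpair.2 + 1) ∧ Z.OK x z.unpair.1.unpair.1 z.unpair.1.unpair.2

open Classical in
/-- The time bounds. -/
noncomputable def tX (x n : ℕ) : ℕ :=
  max (Z.G 0 n) (max
    (fm (fun z => if Z.LC x n z then Z.G z.unpair.1.unpair.1 z.unpair.2 else 0)
      (Nat.pair (Nat.pair n n) n + 1))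
    (fm (fun r => if sS Z.σ r ≤ n ∧ Z.Ra x r then val Z.G Z.σ r else 0) (n + 1)))

/-- The languages of the negative case. -/
def VX (x a n : ℕ) : Prop := ∃ r, sS Z.σ r = n ∧ aa r = a ∧ Z.WR x r

end Dat

end Pool.Agent.H83.SCD
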