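import Pool.Agent.H83.SCD.Stage
import Pool.Agent.H83.SCD.DetW
import Pool.Agent.H83.SCD.AccG
import Pool.Agent.H83.SCL.ClosedExp

/-! Scales, deterministic version: deterministic simulation for exponential scales. -/

namespace Pool.Agent.H83.SCD

open Pool.Agent.Lead.NTM Pool.Agent.H71.NT Pool.Agent.H79.Cx Encodable Denumerable
open Pool.Agent.H83.NT (Pl words mem_words accv AL AL_iff AccL accv_iff Coding exists_coding P3
  IsPi3 IndexSet exists_machine_of_desc mem_NTIMEPol_iff exists_time_bound closed_iff)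
open Pool.Agent.H27.LD (aa ss uu mk3 inp EV exq Slowly)
open Pool.Agent.H83.SCL (Scale UPol Near sS sS_succ lv fm fm_succ)

/-- The size of the padding. -/
theorem scdDetE_bound {G : ℕ → ℕ → ℕ} (hG : Scale G) (h2 : ∀ i n, 2 ^ G i n ≤ G (i + 1) n)
    (p q : Polynomial ℕ) (m i : ℕ) : ∃ C, ∀ n z, z ≤ 1 + n * (2 * m + 2) →
      z + 2 ^ q.eval (p.eval (G i n) + z) ≤
        (1 + Polynomial.X * Polynomial.C (2 * m + 2) +
          Polynomial.C (2 ^ C) * Polynomial.X : Polynomial ℕ).eval (G (i + 2) n) := by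
  obtain ⟨C, hC⟩ := Pool.Agent.H83.SCL.sclClosedExp_poly
    (q.comp (p + (1 + Polynomial.X * Polynomial.C (2 * m + 2))))
  refine ⟨C, fun n z hz => ?_⟩
  set v := G i n with hv
  set X := G (i + 2) n with hX
  have e1 : 2 ^ v ≤ G (i + 1) n := h2 i n
  have e2 : 2 ^ G (i + 1) n ≤ X := h2 (i + 1) n
  have e3 : v < 2 ^ v := Nat.lt_two_pow_self
  have e4 : G (i + 1) n < 2 ^ G (i + 1) n := Nat.lt_two_pow_self
  have e5 : n ≤ v := by
    have h3 : ∀ j, n + 2 ≤ G j n := by
      intro j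
      induction j with
      | zero => exact hG.two n
      | succ j ih =>
        have h4 := h2 j n
        have h5 : G j n < 2 ^ G j n := Nat.lt_two_pow_self
        omega
    have := h3 i
    omega
  have e6 : v ≤ X := by omega
  have h3 := hC v
  simp only [Polynomial.eval_comp, Polynomial.eval_add, Polynomial.eval_mul,
    Polynomial.eval_one, Polynomial.eval_X, Polynomial.eval_C] at h3
  have h4 : q.eval (p.eval v + z) ≤ q.eval (p.eval v + (1 + v * (2 * m + 2))) := by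
    refine eval_mono q ?_
    have h5 : n * (2 * m + 2) ≤ v * (2 * m + 2) := Nat.mul_le_mul_right _ e5
    omega
  have h6 : 2 ^ q.eval (p.eval v + z) ≤ 2 ^ C * X :=
    calc 2 ^ q.eval (p.eval v + z) ≤ 2 ^ (2 ^ v + C) :=
          Nat.pow_le_pow_right (by norm_num) (h4.trans h3)
      _ = 2 ^ C * 2 ^ 2 ^ v := by rw [pow_add, mul_comm]
      _ ≤ 2 ^ C * 2 ^ G (i + 1) n := Nat.mul_le_mul_left _ (Nat.pow_le_pow_right (by norm_num) e1)
      _ ≤ 2 ^ C * X := Nat.mul_le_mul_left _ e2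
  have h7 : n * (2 * m + 2) ≤ X * (2 * m + 2) := Nat.mul_le_mul_right _ (e5.trans e6)
  simp only [Polynomial.eval_add, Polynomial.eval_mul, Polynomial.eval_one, Polynomial.eval_X,
    Polynomial.eval_C]
  omega

/-- Deterministic simulation for exponential scales. -/
theorem det_of_exp {G : ℕ → ℕ → ℕ} (hG : Scale G) (h2 : ∀ i n, 2 ^ G i n ≤ G (i + 1) n)
    (A : Type) [Finite A] {L : Set (List A)} {i : ℕ} (hL : L ∈ NTIMEPol A (G i)) :
    L ∈ Pool.Agent.H83.NT.DTIMEPol A (G (i + 2)) := by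
  obtain ⟨M, p, hM, hp⟩ := hL
  obtain ⟨m, ⟨E⟩⟩ := exists_coding A
  obtain ⟨D', hD'⟩ := Pool.Agent.H83.NT.exists_accL M E.e E.inj
  obtain ⟨g, hg, hg1, q, hg2⟩ := exists_acc D'
  obtain ⟨T, hT⟩ := exists_det_word hg
  obtain ⟨M', hdet, hM', hM'2⟩ := hT A E.e
  obtain ⟨C, hC⟩ := scdDetE_bound hG h2 p q m i
  have hcomplete : ∀ w ∈ L, ∃ P, g (w.map E.e, P) = true ∧ sz (w.map E.e) + P ≤
      (1 + Polynomial.X * Polynomial.C (2 * m + 2) +
        Polynomial.C (2 ^ C) * Polynomial.X : Polynomial ℕ).eval (G (i + 2) w.length) := by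
    intro w hw
    have hsu : sz (w.map E.e) ≤ 1 + w.length * (2 * m + 2) := by
      have h3 := sz_hist_le (h := w.map E.e) (b := m) (by
        intro ρ hρ
        rw [List.mem_map] at hρ
        obtain ⟨a, -, rfl⟩ := hρ
        exact E.lt a)
      rwa [List.length_map] at h3
    obtain ⟨s, hs, hacc⟩ := hp w hw
    refine ⟨2 ^ q.eval (p.eval (G i w.length) + sz (w.map E.e)), ?_, hC _ _ hsu⟩
    refine hg2 _ s _ ((hD' w s).1 hacc) (Nat.pow_le_pow_right (by norm_num) (eval_mono q ?_))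
    omega
  refine ⟨M', T.comp (1 + Polynomial.X * Polynomial.C (2 * m + 2) +
    Polynomial.C (2 ^ C) * Polynomial.X), hdet, fun w => ?_, fun w hw => ?_⟩
  · rw [hM']
    constructor
    · intro hw
      obtain ⟨P, hP, -⟩ := hcomplete w hw
      exact ⟨P, hP⟩
    · rintro ⟨P, hP⟩
      obtain ⟨s, hs⟩ := hg1 _ _ hP
      exact (hM w).2 ⟨s, (hD' w s).2 hs⟩
  · obtain ⟨P, hP, hl⟩ := hcomplete w hw
    obtain ⟨s, hs, hacc⟩ := hM'2 w P hP
    refine ⟨s, hs.trans ?_, hacc⟩
    rw [Polynomial.eval_comp]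
    exact eval_mono T hl

end Pool.Agent.H83.SCD
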