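import Pool.Agent.H83.SCD.Stage
import Pool.Agent.H83.SCD.DetW

/-! Scales, deterministic version: deterministic search machines for languages of lengths. -/

namespace Pool.Agent.H83.SCD

open Pool.Agent.Lead.NTM Pool.Agent.H71.NT Pool.Agent.H79.Cx Encodable Denumerable
open Pool.Agent.H83.NT (Pl words mem_words accv AL AL_iff AccL accv_iff Coding exists_coding P3
  IsPi3 IndexSet exists_machine_of_desc mem_NTIMEPol_iff exists_time_bound closed_iff)
open Pool.Agent.H27.LD (aa ss uu mk3 inp EV exq Slowly)
open Pool.Agent.H83.SCL (Scale UPol Near sS sS_succ lv fm fm_succ)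

/-- The list of bits with number `k`: the binary digits of `k` without the leading one. -/
private def scdDetL_bits (k : ℕ) : List Bool := (bitsL k).reverse.tail.reverse

private theorem scdDetL_bits_numL (l : List Bool) : scdDetL_bits (numL (l ++ [true])) = l := by
  unfold scdDetL_bits
  rw [bitsL_numL]
  simp

private theorem scdDetL_numL_lt (l : List Bool) : numL l < 2 ^ l.length := by
  induction l with
  | nil => simp [numL]
  | cons b l ih =>
    have h1 : numL (b :: l) = (if b = true then 1 else 0) + 2 * numL l := rfl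
    rw [h1, List.length_cons, pow_succ]
    split_ifs <;> omega

/-- The search function. -/
private def scdDetL_g (f : ℕ × List Bool → Bool) (x : List ℕ × ℕ) : Bool :=
  !((List.range (x.2 + 1)).all fun k => !(f (x.1.length, scdDetL_bits k)))

private theorem scdDetL_pt {f : ℕ × List Bool → Bool} (hf : PT f) : PT (scdDetL_g f) := by
  show PT fun x => scdDetL_g f x
  unfold scdDetL_g
  refine PT.not' (PT.all (n := fun x : List ℕ × ℕ => x.2 + 1)
    (p := fun x k => !(f (x.1.length, scdDetL_bits k))) ?_ (by fun_prop))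
  refine PT.not' ?_
  refine PT.comp hf (PT.pair (by fun_prop) ?_)
  unfold scdDetL_bits
  fun_prop

private theorem scdDetL_iff (f : ℕ × List Bool → Bool) (u : List ℕ) (P : ℕ) :
    scdDetL_g f (u, P) = true ↔ ∃ k ≤ P, f (u.length, scdDetL_bits k) = true := by
  unfold scdDetL_g
  simp [Nat.lt_succ_iff]

private theorem scdDetL_sz {A : Type} (w : List A) : sz (w.map fun _ => (0 : ℕ)) = 2 * w.length + 1 := by
  induction w with
  | nil => rfl
  | cons a w ih =>
    rw [List.map_cons, sz_cons, ih, sz_nat, List.length_cons]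
    omega

/-- Deterministic search machines for languages of lengths. -/
theorem exists_det_len {f : ℕ × List Bool → Bool} (hf : PT f) :
    ∃ T : Polynomial ℕ, ∀ (A : Type) [Finite A], ∃ M : Machine A,
      Pool.Agent.H83.NT.Deterministic M ∧ (∀ w : List A, Accepts M w ↔ ∃ y, f (w.length, y) = true) ∧
      ∀ (w : List A) (y : List Bool), f (w.length, y) = true →
        ∃ s ≤ T.eval (w.length + 2 ^ y.length), AcceptsIn M w s := by
  obtain ⟨T, hT⟩ := exists_det_word (scdDetL_pt hf)
  refine ⟨T.comp (2 * Polynomial.X + 1), fun A _ => ?_⟩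
  obtain ⟨M, hM1, hM2, hM3⟩ := hT A (fun _ => 0)
  refine ⟨M, hM1, fun w => ?_, fun w y hy => ?_⟩
  · rw [hM2]
    constructor
    · rintro ⟨P, hP⟩
      obtain ⟨k, -, hk⟩ := (scdDetL_iff f _ P).1 hP
      rw [List.length_map] at hk
      exact ⟨_, hk⟩
    · rintro ⟨y, hy⟩
      refine ⟨numL (y ++ [true]), (scdDetL_iff f _ _).2 ⟨_, le_rfl, ?_⟩⟩
      rw [scdDetL_bits_numL, List.length_map]
      exact hy
  · have h1 : scdDetL_g f (w.map (fun _ => 0), numL (y ++ [true])) = true := by
      refine (scdDetL_iff f _ _).2 ⟨_, le_rfl, ?_⟩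
      rw [scdDetL_bits_numL, List.length_map]
      exact hy
    obtain ⟨s, hs, hs2⟩ := hM3 w _ h1
    refine ⟨s, hs.trans ?_, hs2⟩
    rw [Polynomial.eval_comp]
    refine eval_mono T ?_
    rw [scdDetL_sz]
    have h2 := scdDetL_numL_lt (y ++ [true])
    rw [List.length_append, List.length_singleton, pow_succ] at h2
    simp only [Polynomial.eval_add, Polynomial.eval_mul, Polynomial.eval_X, Polynomial.eval_ofNat,
      Polynomial.eval_one]
    omega

end Pool.Agent.H83.SCD
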