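import Pool.Agent.H83.SCD.Defs
import Pool.Agent.H83.SCL.Exact

/-! Scales, deterministic version: the data of the construction exist. -/

namespace Pool.Agent.H83.SCD

open Pool.Agent.Lead.NTM Pool.Agent.H71.NT Pool.Agent.H79.Cx Encodable Denumerable
open Pool.Agent.H83.NT (Pl words mem_words accv AL AL_iff AccL accv_iff Coding exists_coding P3
  IsPi3 IndexSet exists_machine_of_desc mem_NTIMEPol_iff exists_time_bound closed_iff)
open Pool.Agent.H27.LD (aa ss uu mk3 inp EV exq Slowly)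
open Pool.Agent.H83.SCL (Scale UPol Near sS sS_succ lv fm fm_succ exists_exact)

theorem exists_dat {G : ℕ → ℕ → ℕ} {h : ℕ → ℕ} (hG : Scale G) (hh : Slowly h) (W : P3) :
    ∃ Z : Dat, Z.G = G ∧ Z.h = h ∧ Z.W = W := by
  obtain ⟨MG, pD, hMG, hMp⟩ := hG.honest
  obtain ⟨M, hM, hMu⟩ := Pool.Agent.H27.LD.exists_uniq_of_re (Pool.Agent.H27.LD.re_event W)
  have h2r : Computable fun q : ℕ × ℕ => 2 * q.1 + 6 :=
    Primrec.nat_add.to_comp.comp
      (Primrec.nat_mul.to_comp.comp (Computable.const 2) Computable.fst) (Computable.const 6)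
  obtain ⟨N, hNc, hN⟩ := Pool.Agent.H27.LD.cp_search (p := fun r n : ℕ => 2 * r + 6 ≤ h n)
    (Pool.Agent.H27.LD.cp_le h2r (hh.comp.comp Computable.snd)) fun r => hh.unbounded _
  have hu1 : Computable fun z : ℕ => z.unpair.1 := Computable.fst.comp Computable.unpair
  have hu2 : Computable fun z : ℕ => z.unpair.2 := Computable.snd.comp Computable.unpair
  have h2u : Computable fun z : ℕ => 2 * z.unpair.1 + 2 :=
    Primrec.nat_add.to_comp.comp (Primrec.nat_mul.to_comp.comp (Computable.const 2) hu1)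
      (Computable.const 2)
  have hGc : Computable fun z : ℕ => G (2 * z.unpair.1 + 2) z.unpair.2 := hG.comp.comp h2u hu2
  have hB : Computable fun z : ℕ => z + G (2 * z.unpair.1 + 2) z.unpair.2 + N z.unpair.1 :=
    Primrec.nat_add.to_comp.comp (Primrec.nat_add.to_comp.comp Computable.id hGc) (hNc.comp hu1)
  obtain ⟨M2, σ, hσc, hσ, hσB⟩ := exists_exact hB
  have hσB' : ∀ r n, Nat.pair r n + G (2 * r + 2) n + N r ≤ σ (Nat.pair r n) := by
    intro r n
    have h3 := hσB (Nat.pair r n)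
    rwa [Nat.unpair_pair] at h3
  refine ⟨⟨G, h, σ, descM MG (), pD, descM M2 (), descM M (), W, hG.comp, hG.mono, hG.two, hG.sq,
    ?_, ?_, hh.mono, hh.one_le, hσc, ⟨fun n s => (acceptsIn_iff_desc M2 () n s).symm.trans (hσ n s),
      fun n => ?_⟩, fun r n => ?_, fun r n => ?_, ?_, ?_, ?_⟩, rfl, rfl, rfl⟩
  · intro i n m
    rw [← hMG i n m]
    constructor
    · rintro ⟨y, hy, hy'⟩
      exact ⟨_, (acceptsIn_iff_desc MG () _ _).2 ⟨y, rfl, hy, hy'⟩⟩
    · rintro ⟨s, hs⟩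
      obtain ⟨y, -, hy, hy'⟩ := (acceptsIn_iff_desc MG () _ _).1 hs
      exact ⟨y, hy, hy'⟩
  · intro i n
    obtain ⟨s, hs, hs'⟩ := hMp i n
    obtain ⟨y, hyl, hy, hy'⟩ := (acceptsIn_iff_desc MG () _ _).1 hs'
    exact ⟨y, hyl.trans_le hs, hy, hy'⟩
  · have h3 := hσB n
    omega
  · refine (hN r).trans (hh.mono ?_)
    have h3 := hσB' r n
    omega
  · have h3 := hσB' r n
    omega
  · intro x a s
    have h2 := hM (inp x a s)
    simp only [acceptsIn_iff_desc] at h2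
    unfold inp at h2 ⊢
    simp only [Nat.unpair_pair] at h2
    rw [h2]
    constructor
    · rintro ⟨s, y, -, hy, hy'⟩
      exact ⟨y, hy, hy'⟩
    · rintro ⟨y, hy, hy'⟩
      exact ⟨_, y, rfl, hy, hy'⟩
  · intro z y y' h2 h3 h4 h5
    exact hMu z _ _ ((acceptsIn_iff_desc M () z _).2 ⟨y, rfl, h2, h3⟩)
      ((acceptsIn_iff_desc M () z _).2 ⟨y', rfl, h4, h5⟩)
  · refine Pool.Agent.H27.LD.cp_congr (Pool.Agent.H27.LD.cp_primrec
      (primrecPred_acceptsIn M ())) fun q => ?_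
    rw [acceptsIn_iff_desc]

end Pool.Agent.H83.SCD
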