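import Pool.Agent.H83.SCL.Defs

/-! Scales, deterministic version: the index set of the strictly increasing functions in a window
is `Π⁰₃`. -/

namespace Pool.Agent.H83.SCD

open Pool.Agent.Lead.NTM Pool.Agent.H71.NT Pool.Agent.H79.Cx Encodable Denumerable
open Pool.Agent.H83.NT (Pl words mem_words accv AL AL_iff AccL accv_iff Coding exists_coding P3
  IsPi3 IndexSet exists_machine_of_desc mem_NTIMEPol_iff exists_time_bound closed_iff)
open Pool.Agent.H27.LD (aa ss uu mk3 inp EV exq Slowly)
open Pool.Agent.H83.SCL (Scale UPol Near)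
open Pool.Agent.H83.NT (ex computable_exS computable_exV exists_ex ex_some computable_ltn
  isPi3_closed cu1 cu2 computable_and computable_or computable_not)
open Nat.Partrec (Code)

private theorem scdWin_mono {x k k' n v : ℕ} (hkk : k ≤ k') (h : ex (k, x) n = some v) :
    ex (k', x) n = some v := by
  unfold ex at h ⊢
  exact Option.mem_def.1 (Code.evaln_mono hkk (Option.mem_def.2 h))

private theorem scdWin_sound {x k n v : ℕ} (h : ex (k, x) n = some v) :
    v ∈ (ofNat Code x).eval n := by
  unfold ex at h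
  exact Code.evaln_sound (Option.mem_def.2 h)

/-- The strictly increasing functions between the two bounds of the window. -/
private theorem scdWin_bounds {G : ℕ → ℕ → ℕ} {h : ℕ → ℕ} (hG : Computable₂ G)
    (hh : Computable h) :
    IsPi3 (IndexSet fun t => StrictMono t ∧ ∀ n, G 0 n ≤ t n ∧ t n ≤ G (h n) n) := by
  refine ⟨fun x a b _ => ((ex (b, x) a).isSome && (ex (b, x) (a + 1)).isSome) &&
    (decide ((ex (b, x) a).getD 0 < (ex (b, x) (a + 1)).getD 0) &&
      (decide (G 0 a ≤ (ex (b, x) a).getD 0) && decide ((ex (b, x) a).getD 0 ≤ G (h a) a))), ?_,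
    fun x => ?_⟩
  · have hz : Computable fun q : (ℕ × ℕ) × (ℕ × ℕ) => ((q.2.1, q.1.1) : ℕ × ℕ) :=
      (Computable.fst.comp Computable.snd).pair (Computable.fst.comp Computable.fst)
    have ha : Computable fun q : (ℕ × ℕ) × (ℕ × ℕ) => q.1.2 := Computable.snd.comp Computable.fst
    have ha' : Computable fun q : (ℕ × ℕ) × (ℕ × ℕ) => q.1.2 + 1 := Computable.succ.comp ha
    have h1 := computable_exS.comp hz ha
    have h2 := computable_exS.comp hz ha'
    have h3 := computable_exV.comp hz ha
    have h4 := computable_exV.comp hz ha'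
    exact computable_and.comp (computable_and.comp h1 h2)
      (computable_and.comp (computable_ltn.comp h3 h4)
        (computable_and.comp (Pool.Agent.H83.NT.computable_len.comp (hG.comp (Computable.const 0) ha) h3)
          (Pool.Agent.H83.NT.computable_len.comp h3 (hG.comp (hh.comp ha) ha))))
  · simp only [Bool.and_eq_true, decide_eq_true_eq]
    constructor
    · rintro ⟨t, ht, h1, h2⟩ a
      obtain ⟨k, hk⟩ := exists_ex (ht a)
      obtain ⟨k', hk'⟩ := exists_ex (ht (a + 1))
      have h4 := scdWin_mono (le_max_left k k') hk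
      have h5 := scdWin_mono (le_max_right k k') hk'
      refine ⟨max k k', fun _ => ?_⟩
      rw [h4, h5]
      exact ⟨⟨rfl, rfl⟩, h1 (Nat.lt_succ_self a), h2 a⟩
    · intro hall
      choose k hk using hall
      choose t ht using fun n => Option.isSome_iff_exists.1 (hk n 0).1.1
      choose t' ht' using fun n => Option.isSome_iff_exists.1 (hk n 0).1.2
      have hmem : ∀ n, t n ∈ (ofNat Code x).eval n := fun n => scdWin_sound (ht n)
      refine ⟨t, hmem, ?_, ?_⟩
      · refine strictMono_nat_of_lt_succ fun n => ?_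
        have h1 := (hk n 0).2.1
        rw [ht n, ht' n] at h1
        have h2 := ex_some (ht' n) (hmem (n + 1))
        rw [← h2]
        exact h1
      · intro n
        have h1 := (hk n 0).2.2
        rw [ht n] at h1
        exact h1

/-- The functions which are eventually above each member of the scale. -/
private theorem scdWin_tails {G : ℕ → ℕ → ℕ} (hG : Computable₂ G) :
    IsPi3 {x | ∀ i, ∃ N, ∀ c : ℕ, (!(decide (N ≤ c.unpair.1)) ||
      (!((ex (c.unpair.2, x) c.unpair.1).isSome) ||
        decide (G i c.unpair.1 ≤ (ex (c.unpair.2, x) c.unpair.1).getD 0))) = true} := by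
  refine ⟨fun x i N c => !(decide (N ≤ c.unpair.1)) ||
      (!((ex (c.unpair.2, x) c.unpair.1).isSome) ||
        decide (G i c.unpair.1 ≤ (ex (c.unpair.2, x) c.unpair.1).getD 0)), ?_, fun _ => Iff.rfl⟩
  have hx : Computable fun q : (ℕ × ℕ) × (ℕ × ℕ) => q.1.1 := Computable.fst.comp Computable.fst
  have hi : Computable fun q : (ℕ × ℕ) × (ℕ × ℕ) => q.1.2 := Computable.snd.comp Computable.fst
  have hN : Computable fun q : (ℕ × ℕ) × (ℕ × ℕ) => q.2.1 := Computable.fst.comp Computable.snd
  have hc : Computable fun q : (ℕ × ℕ) × (ℕ × ℕ) => q.2.2 := Computable.snd.comp Computable.snd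
  have hz : Computable fun q : (ℕ × ℕ) × (ℕ × ℕ) => ((q.2.2.unpair.2, q.1.1) : ℕ × ℕ) :=
    (cu2 hc).pair hx
  have h1 := computable_exS.comp hz (cu1 hc)
  have h3 := computable_exV.comp hz (cu1 hc)
  exact computable_or.comp (computable_not.comp (Pool.Agent.H83.NT.computable_len.comp hN (cu1 hc)))
    (computable_or.comp (computable_not.comp h1)
      (Pool.Agent.H83.NT.computable_len.comp (hG.comp hi (cu1 hc)) h3))

private theorem scdWin_tails_iff {G : ℕ → ℕ → ℕ} {x : ℕ} {t : ℕ → ℕ}
    (ht : ∀ n, t n ∈ (ofNat Code x).eval n) :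
    (∀ i, ∃ N, ∀ c : ℕ, (!(decide (N ≤ c.unpair.1)) ||
      (!((ex (c.unpair.2, x) c.unpair.1).isSome) ||
        decide (G i c.unpair.1 ≤ (ex (c.unpair.2, x) c.unpair.1).getD 0))) = true) ↔
      ∀ i, ∀ᶠ n in Filter.atTop, G i n ≤ t n := by
  refine forall_congr' fun i => ?_
  rw [Filter.eventually_atTop]
  refine exists_congr fun N => ?_
  constructor
  · intro h n hn
    obtain ⟨k, hk⟩ := exists_ex (ht n)
    have h1 := h (Nat.pair n k)
    rw [Nat.unpair_pair] at h1
    simp only [Bool.or_eq_true, Bool.not_eq_true', decide_eq_false_iff_not,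
      decide_eq_true_eq] at h1
    rcases h1 with h1 | h1 | h1
    · exact absurd hn h1
    · rw [hk] at h1
      exact absurd h1 (by simp)
    · rw [hk] at h1
      exact h1
  · intro h c
    simp only [Bool.or_eq_true, Bool.not_eq_true', decide_eq_false_iff_not, decide_eq_true_eq]
    by_cases h1 : N ≤ c.unpair.1
    · right
      by_cases h2 : (ex (c.unpair.2, x) c.unpair.1).isSome = true
      · right
        obtain ⟨v, hv⟩ := Option.isSome_iff_exists.1 h2
        rw [hv]
        show G i c.unpair.1 ≤ v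
        rw [ex_some hv (ht _)]
        exact h _ h1
      · left
        simpa using h2
    · left
      exact h1

theorem isPi3_near {G : ℕ → ℕ → ℕ} {h : ℕ → ℕ} (hG : Computable₂ G) (hh : Computable h) :
    IsPi3 (IndexSet fun t => StrictMono t ∧ Near G h t) := by
  have h1 := (scdWin_bounds hG hh).inter (scdWin_tails hG)
  have heq : (IndexSet fun t => StrictMono t ∧ Near G h t) =
      (IndexSet fun t => StrictMono t ∧ ∀ n, G 0 n ≤ t n ∧ t n ≤ G (h n) n) ∩
        {x | ∀ i, ∃ N, ∀ c : ℕ, (!(decide (N ≤ c.unpair.1)) ||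
          (!((ex (c.unpair.2, x) c.unpair.1).isSome) ||
            decide (G i c.unpair.1 ≤ (ex (c.unpair.2, x) c.unpair.1).getD 0))) = true} := by
    ext x
    constructor
    · rintro ⟨t, h1, h2, h3, h4⟩
      exact ⟨⟨t, h1, h2, h3⟩, (scdWin_tails_iff h1).2 h4⟩
    · rintro ⟨⟨t, h1, h2, h3⟩, h4⟩
      exact ⟨t, h1, h2, h3, (scdWin_tails_iff h1).1 h4⟩
  rw [heq]
  exact h1

end Pool.Agent.H83.SCD
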