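import Pool.Agent.H83.SCD.Stage
import Pool.Agent.H83.SCD.Near
import Pool.Agent.H83.SCD.Pos
import Pool.Agent.H83.SCD.Neg
import Pool.Agent.H83.SCD.Comp
import Pool.Agent.H83.SCD.Mach
import Pool.Agent.H83.SCD.DetE
import Pool.Agent.H83.SCL.Slow

/-!
Scales, deterministic version: the main theorems.
-/

namespace Pool.Agent.H83.SCD

open Pool.Agent.Lead.NTM Encodable Denumerable
open Pool.Agent.H83.NT (P3 IsPi3 IndexSet exists_codes closed_iff DTIMEPol Deterministic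
  DTIMEPol_subset)
open Pool.Agent.H27.LD (Slowly)
open Pool.Agent.H83.SCL (Scale UPol Near Pi3Complete slow)

theorem mem_DTIMEPol_of_le {A : Type} {t u : ℕ → ℕ} {L : Set (List A)} (hL : L ∈ DTIMEPol A u)
    (q : Polynomial ℕ) (h : ∀ w ∈ L, u w.length ≤ q.eval (t w.length)) : L ∈ DTIMEPol A t := by
  obtain ⟨M, p, hMd, hM, hp⟩ := hL
  refine ⟨M, p.comp q, hMd, hM, fun w hw => ?_⟩
  obtain ⟨s, hs, hacc⟩ := hp w hw
  refine ⟨s, hs.trans ?_, hacc⟩
  rw [Polynomial.eval_comp]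
  have hle := h w hw
  rw [Polynomial.eval_eq_sum_range, Polynomial.eval_eq_sum_range]
  exact Finset.sum_le_sum fun i _ => Nat.mul_le_mul_left _ (Nat.pow_le_pow_left hle i)

theorem NTIMEPol_add {A : Type} {t : ℕ → ℕ} (ht : ∀ n, n ≤ t n) :
    NTIMEPol A (fun n => t n + n) = NTIMEPol A t := by
  refine Set.Subset.antisymm (fun L hL => ?_) fun L hL => ?_
  · refine mem_NTIMEPol_of_le hL (2 * Polynomial.X) fun w _ => ?_
    simp only [Polynomial.eval_mul, Polynomial.eval_ofNat, Polynomial.eval_X]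
    have := ht w.length
    omega
  · refine mem_NTIMEPol_of_le hL Polynomial.X fun w _ => ?_
    rw [Polynomial.eval_X]
    exact Nat.le_add_right _ _

theorem DTIMEPol_add {A : Type} {t : ℕ → ℕ} (ht : ∀ n, n ≤ t n) :
    DTIMEPol A (fun n => t n + n) = DTIMEPol A t := by
  refine Set.Subset.antisymm (fun L hL => ?_) fun L hL => ?_
  · refine mem_DTIMEPol_of_le hL (2 * Polynomial.X) fun w _ => ?_
    simp only [Polynomial.eval_mul, Polynomial.eval_ofNat, Polynomial.eval_X]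
    have := ht w.length
    omega
  · refine mem_DTIMEPol_of_le hL Polynomial.X fun w _ => ?_
    rw [Polynomial.eval_X]
    exact Nat.le_add_right _ _

namespace Dat

/-- In the positive case of an exponential scale, nondeterminism does not help. -/
theorem pos_det {Z : Dat} (hG : Scale Z.G) (h2 : ∀ i n, 2 ^ Z.G i n ≤ Z.G (i + 1) n) {x : ℕ}
    (hx : x ∈ Z.W.set) (A : Type) [Finite A] : NTIMEPol A (Z.tX x) = DTIMEPol A (Z.tX x) := by
  refine Set.Subset.antisymm (fun L hL => ?_) (DTIMEPol_subset _ _)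
  rw [Z.pos_case hx A] at hL
  obtain ⟨i, hi⟩ := hL
  have h3 := det_of_exp hG h2 A hi
  obtain ⟨N, hN⟩ := Filter.eventually_atTop.1 (Z.eventually_le x (i + 2))
  refine mem_DTIMEPol_of_le h3 (Polynomial.X + Polynomial.C (Z.G (i + 2) N)) fun w _ => ?_
  rw [Polynomial.eval_add, Polynomial.eval_X, Polynomial.eval_C]
  rcases Nat.lt_or_ge w.length N with h1 | h1
  · exact (Z.Gm (i + 2) h1.le).trans (Nat.le_add_left _ _)
  · exact (hN _ h1).trans (Nat.le_add_right _ _)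

end Dat

/-- The computable families. -/
theorem core {G : ℕ → ℕ → ℕ} {h : ℕ → ℕ} (hG : Scale G) (hh : Slowly h) {S : Set ℕ}
    (hS : IsPi3 S) : ∃ f : ℕ → ℕ, Computable f ∧ ∀ x, ∃ t : ℕ → ℕ,
      (∀ n, t n ∈ (Denumerable.ofNat Nat.Partrec.Code (f x)).eval n) ∧
      StrictMono t ∧ Near G h t ∧
      (x ∈ S → ∀ (A : Type) [Finite A], NTIMEPol A t = UPol A G ∧
        ((∀ i n, 2 ^ G i n ≤ G (i + 1) n) → NTIMEPol A t = DTIMEPol A t)) ∧
      (x ∉ S → ∀ (A : Type) [Finite A] [Nonempty A], ∃ L ∈ NTIMEPol A t, Lᶜ ∉ NTIMEPol A t ∧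
        ((∀ i n, 2 ^ G i n ≤ G (i + 1) n) → L ∈ DTIMEPol A t)) := by
  obtain ⟨R, hR, hRS⟩ := hS
  let W : P3 := ⟨R, hR⟩
  have hW : W.set = S := by
    ext x
    exact (hRS x).symm
  obtain ⟨Z, hZG, hZh, hZW⟩ := exists_dat hG hh W
  have hcomp : Computable₂ fun x n => Z.tX x n + n :=
    Primrec.nat_add.to_comp.comp (computable_tX Z) Computable.snd
  obtain ⟨f, hf, hft⟩ := exists_codes hcomp
  have hid : ∀ x n, n ≤ Z.tX x n := fun x n =>
    ((Nat.le_add_right n 2).trans (Z.G2 n)).trans (Z.G_le_tX x n)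
  refine ⟨f, hf, fun x => ⟨fun n => Z.tX x n + n, hft x, ?_, ⟨fun n => ⟨?_, ?_⟩, fun i => ?_⟩,
    fun hx A _ => ⟨?_, fun h2 => ?_⟩, fun hx A _ _ => ?_⟩⟩
  · intro a b hab
    exact add_lt_add_of_le_of_lt (Z.tX_mono x hab.le) hab
  · rw [← hZG]
    exact (Z.G_le_tX x n).trans (Nat.le_add_right _ _)
  · rw [← hZG, ← hZh]
    have h1 := Z.tX_window x n
    have h2 := Z.id_le (Z.h n - 1) n
    have h3 := Z.Gsq (Z.h n - 1) n
    rw [Nat.sub_add_cancel (Z.h1 n)] at h3
    show Z.tX x n + n ≤ Z.G (Z.h n) n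
    nlinarith
  · rw [← hZG]
    exact (Z.eventually_le x i).mono fun n hn => hn.trans (Nat.le_add_right _ _)
  · rw [NTIMEPol_add (hid x), ← hZG]
    rw [← hW, ← hZW] at hx
    exact Z.pos_case hx A
  · rw [NTIMEPol_add (hid x), DTIMEPol_add (hid x)]
    rw [← hW, ← hZW] at hx
    subst hZG
    exact Dat.pos_det hG h2 hx A
  · rw [NTIMEPol_add (hid x), DTIMEPol_add (hid x)]
    rw [← hW, ← hZW] at hx
    subst hZG
    exact Z.neg_case hx A

theorem isPi3_inter_closed {Q : (ℕ → ℕ) → Prop} (hQ : IsPi3 (IndexSet Q)) (A : Type) [Finite A] :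
    IsPi3 (IndexSet fun t => Q t ∧ NTIMEPol A t = coNTIMEPol A t) := by
  have h := hQ.inter (Pool.Agent.H83.NT.isPi3_closed A)
  have heq : (IndexSet fun t => Q t ∧ NTIMEPol A t = coNTIMEPol A t) =
      IndexSet Q ∩ (IndexSet fun t => NTIMEPol A t = coNTIMEPol A t) := by
    ext x
    constructor
    · rintro ⟨t, h1, h2, h3⟩
      exact ⟨⟨t, h1, h2⟩, ⟨t, h1, h3⟩⟩
    · rintro ⟨⟨t, h1, h2⟩, ⟨t', h1', h3⟩⟩
      have : t' = t := funext fun n => Part.mem_unique (h1' n) (h1 n)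
      subst this
      exact ⟨t', h1, h2, h3⟩
  rw [heq]
  exact h

/-- The equivalence. -/
theorem tfae {G : ℕ → ℕ → ℕ} (hG : Scale G) (A : Type) [Finite A] [Nonempty A] : List.TFAE [
      ∀ L ∈ UPol A G, Lᶜ ∈ UPol A G,
      ∀ h, Slowly h → ∃ t : ℕ → ℕ, Near G h t ∧ NTIMEPol A t = coNTIMEPol A t,
      ∀ h, Slowly h → ∀ Q : (ℕ → ℕ) → Prop, IsPi3 (IndexSet Q) →
        (∀ t : ℕ → ℕ, Computable t → StrictMono t → Near G h t → Q t) →
        Pi3Complete (IndexSet fun t => Q t ∧ NTIMEPol A t = coNTIMEPol A t)] := by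
  tfae_have 1 → 3 := by
    intro hcl h hh Q hQ hQ'
    refine ⟨isPi3_inter_closed hQ A, fun S hS => ?_⟩
    obtain ⟨f, hf, hfx⟩ := core hG hh hS
    refine ⟨f, hf, fun x => ?_⟩
    obtain ⟨t, ht, hm, hw, h1, h2⟩ := hfx x
    constructor
    · intro hx
      have htc : Computable t := by
        have h3 : Nat.Partrec fun n => (Part.some (t n) : Part ℕ) := by
          have h4 : (fun n => (Part.some (t n) : Part ℕ)) =
              (Denumerable.ofNat Nat.Partrec.Code (f x)).eval :=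
            funext fun n => (Part.eq_some_iff.2 (ht n)).symm
          rw [h4]
          exact Nat.Partrec.Code.exists_code.2 ⟨_, rfl⟩
        exact Partrec.nat_iff.2 h3
      refine ⟨t, ht, hQ' t htc hm hw, ?_⟩
      rw [closed_iff]
      have h3 := (h1 hx A).1
      rw [h3]
      exact hcl
    · rintro ⟨t', ht', -, hc⟩
      by_contra hx
      have h5 : t' = t := funext fun n => Part.mem_unique (ht' n) (ht n)
      subst h5
      obtain ⟨L, hL, hL', -⟩ := h2 hx A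
      exact hL' (closed_iff.1 hc L hL)
  tfae_have 3 → 2 := by
    intro hc h hh
    have hu : IsPi3 (Set.univ : Set ℕ) :=
      ⟨fun _ _ _ _ => true, Computable.const true, fun x => by simp⟩
    obtain ⟨f, -, hf⟩ := (hc h hh _ (isPi3_near hG.comp hh.comp)
      fun t _ hm hw => ⟨hm, hw⟩).2 _ hu
    obtain ⟨t, -, ⟨-, h1⟩, h2⟩ := (hf 0).1 (Set.mem_univ 0)
    exact ⟨t, h1, h2⟩
  tfae_have 2 → 1 := by
    intro hc
    by_contra hne
    obtain ⟨h, hh, h5⟩ := slow hG hne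
    obtain ⟨t, ht, hcl⟩ := hc h hh
    exact h5 t ht hcl
  tfae_finish

end Pool.Agent.H83.SCD
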