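import Pool.Agent.H83.SCD.Defs

/-!
Scales, deterministic version: properties of the time bounds `tX x`.
-/

namespace Pool.Agent.H83.SCD

open Pool.Agent.Lead.NTM Pool.Agent.H71.NT
open Pool.Agent.H27.LD (aa ss uu mk3 mk3_eq inp EV exq Slowly)
open Pool.Agent.H83.SCL (Scale UPol Near sS sS_succ lv fm fm_succ le_fm fm_le lv_le two_le_sS)

namespace Dat

variable (Z : Dat)

theorem id_le0 (i n : ℕ) : n + 2 ≤ Z.G i n := by
  induction i with
  | zero => exact Z.G2 n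
  | succ i ih =>
    have h1 := Z.Gsq i n
    nlinarith

theorem id_le (i n : ℕ) : n + 2 ≤ Z.G i n := Z.id_le0 i n

theorem G_le {i j : ℕ} (h : i ≤ j) (n : ℕ) : Z.G i n ≤ Z.G j n := by
  induction j with
  | zero =>
    have : i = 0 := by omega
    rw [this]
  | succ j ih =>
    rcases Nat.le_succ_iff_eq_or_le.1 h with h1 | h1
    · rw [h1]
    · have h2 := ih h1
      have h3 := Z.Gsq j n
      have h4 := Z.id_le j n
      nlinarith

theorem pow_le (i c n : ℕ) : Z.G i n ^ 2 ^ c ≤ Z.G (i + c) n := by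
  induction c with
  | zero => simp
  | succ c ih =>
    calc Z.G i n ^ 2 ^ (c + 1) = (Z.G i n ^ 2 ^ c) ^ 2 := by rw [← pow_mul, pow_succ]
      _ ≤ Z.G (i + c) n ^ 2 := Nat.pow_le_pow_left ih _
      _ ≤ Z.G (i + (c + 1)) n := Z.Gsq _ _

theorem sS_lt_succ (r : ℕ) : sS Z.σ r < sS Z.σ (r + 1) := by
  rw [sS_succ]
  have h1 := Z.hσ.2 (Nat.pair r (sS Z.σ r))
  have h2 := Nat.right_le_pair r (sS Z.σ r)
  omega

theorem sS_strictMono : StrictMono (sS Z.σ) := strictMono_nat_of_lt_succ Z.sS_lt_succ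

theorem le_sS (r : ℕ) : r ≤ sS Z.σ r := Z.sS_strictMono.id_le r

theorem exists_block {n : ℕ} (hn : 2 ≤ n) : ∃ r, sS Z.σ r ≤ n ∧ n < sS Z.σ (r + 1) := by
  classical
  have h1 : ∃ r, n < sS Z.σ r := ⟨n + 1, by
    have := Z.le_sS (n + 1)
    omega⟩
  set m := Nat.find h1 with hm
  have h2 : n < sS Z.σ m := Nat.find_spec h1
  have h3 : 0 < m := by
    rcases Nat.eq_zero_or_pos m with h0 | h0
    · exfalso
      rw [h0] at h2
      have : sS Z.σ 0 = 2 := rfl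
      omega
    · exact h0
  refine ⟨m - 1, ?_, ?_⟩
  · have := Nat.find_min h1 (show m - 1 < m by omega)
    omega
  · rw [Nat.sub_add_cancel (by omega)]
    exact h2

theorem G_lt (r : ℕ) : Z.G (2 * r + 2) (sS Z.σ r) < sS Z.σ (r + 1) := by
  rw [sS_succ]
  have h1 := Z.hσG r (sS Z.σ r)
  omega

theorem val_lt (r : ℕ) : val Z.G Z.σ r < sS Z.σ (r + 1) :=
  (Z.G_le (Nat.add_le_add_right (lv_le r) 2) _).trans_lt (Z.G_lt r)

theorem tv_le_val (r : ℕ) : tv Z.G Z.σ r ≤ val Z.G Z.σ r := Z.G_le (Nat.le_add_right _ _) _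

theorem le_tv (r : ℕ) : sS Z.σ r + 2 ≤ tv Z.G Z.σ r := Z.id_le _ _

theorem eq_of_block {n r r' : ℕ} (h1 : sS Z.σ r ≤ n) (h2 : n < sS Z.σ (r + 1))
    (h1' : sS Z.σ r' ≤ n) : r' ≤ r := by
  by_contra h3
  have h4 : r + 1 ≤ r' := by omega
  have h5 : sS Z.σ (r + 1) ≤ sS Z.σ r' := Z.sS_strictMono.monotone h4
  omega

theorem G_le_tX (x n : ℕ) : Z.G 0 n ≤ Z.tX x n := le_max_left _ _

/-- The contributions of the levels. -/
theorem lev_le_tX {x n n' j r : ℕ} (h : n' ≤ n) (h1 : sS Z.σ r ≤ n') (h2 : n' < sS Z.σ (r + 1))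
    (h3 : Z.OK x j r) : Z.G j n' ≤ Z.tX x n := by
  classical
  have hLC : Z.LC x n (Nat.pair (Nat.pair j r) n') := by
    unfold LC
    simp only [Nat.unpair_pair]
    exact ⟨h, h1, h2, h3⟩
  have hr : r ≤ n := ((Z.le_sS r).trans h1).trans h
  have hj : j ≤ n := h3.1.trans hr
  have hlt : Nat.pair (Nat.pair j r) n' < Nat.pair (Nat.pair n n) n + 1 := by
    have hmono : ∀ {a b c d : ℕ}, a ≤ c → b ≤ d → Nat.pair a b ≤ Nat.pair c d := by
      intro a b c d hac hbd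
      rcases hac.lt_or_eq with h4 | rfl
      · rcases hbd.lt_or_eq with h5 | rfl
        · exact ((Nat.pair_lt_pair_left b h4).trans (Nat.pair_lt_pair_right c h5)).le
        · exact (Nat.pair_lt_pair_left b h4).le
      · rcases hbd.lt_or_eq with h5 | rfl
        · exact (Nat.pair_lt_pair_right a h5).le
        · exact le_rfl
    exact Nat.lt_succ_of_le (hmono (hmono hj hr) h)
  unfold tX
  refine le_trans ?_ (le_max_right _ _)
  refine le_trans ?_ (le_max_left _ _)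
  refine le_trans ?_ (le_fm hlt)
  rw [if_pos hLC]
  simp only [Nat.unpair_pair]
  exact le_rfl

theorem val_le_tX {x n r : ℕ} (h1 : sS Z.σ r ≤ n) (h2 : Z.Ra x r) :
    val Z.G Z.σ r ≤ Z.tX x n := by
  classical
  have hr : r < n + 1 := Nat.lt_succ_of_le ((Z.le_sS r).trans h1)
  unfold tX
  refine le_trans ?_ (le_max_right _ _)
  refine le_trans ?_ (le_max_right _ _)
  refine le_trans ?_ (le_fm hr)
  rw [if_pos ⟨h1, h2⟩]

theorem tX_le {x n K : ℕ} (hG : Z.G 0 n ≤ K)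
    (h1 : ∀ n' j r, n' ≤ n → sS Z.σ r ≤ n' → n' < sS Z.σ (r + 1) → Z.OK x j r → Z.G j n' ≤ K)
    (h2 : ∀ r, sS Z.σ r ≤ n → Z.Ra x r → val Z.G Z.σ r ≤ K) : Z.tX x n ≤ K := by
  classical
  unfold tX
  refine max_le hG (max_le (fm_le fun z _ => ?_) (fm_le fun r _ => ?_))
  · split_ifs with h
    · exact h1 _ _ _ h.1 h.2.1 h.2.2.1 h.2.2.2
    · exact Nat.zero_le _
  · split_ifs with h
    · exact h2 r h.1 h.2
    · exact Nat.zero_le _

theorem tX_mono (x : ℕ) : Monotone (Z.tX x) := fun m n h =>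
  Z.tX_le ((Z.Gm 0 h).trans (Z.G_le_tX x n))
    (fun _ _ _ h1 h2 h3 h4 => Z.lev_le_tX (h1.trans h) h2 h3 h4)
    fun _ h1 h2 => Z.val_le_tX (h1.trans h) h2

/-- The contributions of the levels in a block. -/
theorem lev_le {x n n' j r r' : ℕ} (h1 : sS Z.σ r ≤ n) (h2 : n < sS Z.σ (r + 1)) (h : n' ≤ n)
    (h1' : sS Z.σ r' ≤ n') (h3 : Z.OK x j r') : Z.G j n' ≤ Z.G r n :=
  (Z.Gm j h).trans (Z.G_le (h3.1.trans (Z.eq_of_block h1 h2 (h1'.trans h))) n)

/-- Stages below the block of `n` do not matter. -/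
theorem val_le_G {n r r' : ℕ} (h1 : sS Z.σ r ≤ n) (h : r' < r) (j : ℕ) :
    val Z.G Z.σ r' ≤ Z.G j n := by
  have h2 := Z.val_lt r'
  have h3 : sS Z.σ (r' + 1) ≤ sS Z.σ r := Z.sS_strictMono.monotone h
  have h4 := Z.id_le j n
  omega

theorem tX_le_of_not {x n r : ℕ} (h1 : sS Z.σ r ≤ n) (h2 : n < sS Z.σ (r + 1))
    (h : ¬ Z.Ra x r) : Z.tX x n ≤ Z.G r n := by
  refine Z.tX_le (Z.G_le (Nat.zero_le _) n) (fun n' j r' h3 h4 _ h5 => Z.lev_le h1 h2 h3 h4 h5)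
    fun r' h3 h4 => ?_
  rcases (Z.eq_of_block h1 h2 h3).lt_or_eq with h5 | rfl
  · exact Z.val_le_G h1 h5 r
  · exact absurd h4 h

theorem tX_le_of {x n r : ℕ} (h1 : sS Z.σ r ≤ n) (h2 : n < sS Z.σ (r + 1)) :
    Z.tX x n ≤ max (Z.G r n) (val Z.G Z.σ r) := by
  refine Z.tX_le ((Z.G_le (Nat.zero_le _) n).trans (le_max_left _ _))
    (fun n' j r' h3 h4 _ h5 => (Z.lev_le h1 h2 h3 h4 h5).trans (le_max_left _ _))
    fun r' h3 _ => ?_
  rcases (Z.eq_of_block h1 h2 h3).lt_or_eq with h5 | rfl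
  · exact (Z.val_le_G h1 h5 r).trans (le_max_left _ _)
  · exact le_max_right _ _

/-- A requirement which acts is satisfied. -/
theorem tX_le_of_blk {x e n r : ℕ} (h1 : sS Z.σ r ≤ n) (h2 : n < sS Z.σ (r + 1))
    (h : Z.Blk x e r) : Z.tX x n ≤ Z.G e n := by
  refine Z.tX_le (Z.G_le (Nat.zero_le _) n) (fun n' j r' h3 h4 h5 h6 => ?_) fun r' h3 h4 => ?_
  · have h7 := Z.eq_of_block h1 h2 (h4.trans h3)
    rcases Nat.lt_or_ge e j with h8 | h8
    · -- then `r' ≤ r - 2`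
      have h9 := h6.2 e h8
      have h10 : r' ≠ r := by
        rintro rfl
        exact h9.1 h
      have h11 : r' + 1 ≠ r := by
        rintro rfl
        exact h9.2 h
      have h12 : r' + 2 ≤ r := by omega
      have h13 : Z.G j n' ≤ Z.G (2 * (r' + 1) + 2) (sS Z.σ (r' + 1)) :=
        (Z.G_le (h6.1.trans (by omega)) n').trans (Z.Gm _ h5.le)
      have h14 := Z.G_lt (r' + 1)
      have h15 : sS Z.σ (r' + 1 + 1) ≤ sS Z.σ r := Z.sS_strictMono.monotone h12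
      have h16 := Z.id_le e n
      omega
    · exact (Z.G_le h8 n').trans (Z.Gm e h3)
  · rcases (Z.eq_of_block h1 h2 h3).lt_or_eq with h5 | rfl
    · exact Z.val_le_G h1 h5 e
    · exfalso
      rcases h.1.2 with h6 | h6
      · exact h6.1 h4.1
      · exact h4.2 e h6.2.1 h

/-- Each requirement acts at most once. -/
theorem Blk_unique {x e r r' : ℕ} (h : Z.Blk x e r) (h' : Z.Blk x e r') : r = r' := by
  rcases Nat.lt_trichotomy r r' with h1 | h1 | h1
  · exact absurd h.1 (h'.2 r h1)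
  · exact h1
  · exact absurd h'.1 (h.2 r' h1)

theorem exists_bound_blk (x i : ℕ) : ∃ R, ∀ e < i, ∀ r, Z.Blk x e r → r < R := by
  induction i with
  | zero => exact ⟨0, fun e he => absurd he (Nat.not_lt_zero e)⟩
  | succ i ih =>
    obtain ⟨R, hR⟩ := ih
    by_cases h : ∃ r, Z.Blk x i r
    · obtain ⟨r, hr⟩ := h
      refine ⟨max R (r + 1), fun e he r' hr' => ?_⟩
      rcases Nat.lt_succ_iff_lt_or_eq.1 he with h1 | rfl
      · exact (hR e h1 r' hr').trans_le (le_max_left _ _)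
      · rw [Z.Blk_unique hr' hr]
        exact (Nat.lt_succ_self r).trans_le (le_max_right _ _)
    · refine ⟨R, fun e he r' hr' => ?_⟩
      rcases Nat.lt_succ_iff_lt_or_eq.1 he with h1 | rfl
      · exact hR e h1 r' hr'
      · exact absurd ⟨r', hr'⟩ h

theorem eventually_le (x i : ℕ) : ∀ᶠ n in Filter.atTop, Z.G i n ≤ Z.tX x n := by
  obtain ⟨R, hR⟩ := Z.exists_bound_blk x i
  refine Filter.eventually_atTop.2 ⟨sS Z.σ (max R i), fun n hn => ?_⟩
  obtain ⟨r, h1, h2⟩ := Z.exists_block ((two_le_sS Z.σ _).trans hn)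
  have h3 : max R i ≤ r := Z.eq_of_block h1 h2 hn
  have h4 : R ≤ r := (le_max_left _ _).trans h3
  have h5 : i ≤ r := (le_max_right _ _).trans h3
  refine Z.lev_le_tX le_rfl h1 h2 ⟨h5, fun e he => ⟨fun h => ?_, fun h => ?_⟩⟩
  · have := hR e he _ h
    omega
  · have := hR e he _ h
    omega

theorem h_ge (r : ℕ) (hr : 0 < r) : 2 * r + 4 ≤ Z.h (sS Z.σ r) := by
  obtain ⟨r, rfl⟩ : ∃ r', r = r' + 1 := ⟨r - 1, by omega⟩
  rw [sS_succ]
  have := Z.hσh r (sS Z.σ r)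
  omega

theorem tX_window (x n : ℕ) : Z.tX x n ≤ Z.G (Z.h n - 1) n := by
  have hlev : ∀ r, sS Z.σ r ≤ n → r ≤ Z.h n - 1 := by
    intro r hr
    rcases Nat.eq_zero_or_pos r with h0 | h0
    · omega
    · have h1 := Z.h_ge r h0
      have h2 := Z.hm hr
      omega
  refine Z.tX_le (Z.G_le (Nat.zero_le _) n) (fun n' j r' h3 h4 _ h6 => ?_) fun r' h3 h4 => ?_
  · exact (Z.Gm j h3).trans (Z.G_le (h6.1.trans (hlev r' (h4.trans h3))) n)
  · have h0 : 0 < r' := h4.1.2.1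
    have h1 := Z.h_ge r' h0
    have h2 := Z.hm h3
    have h5 := lv_le r'
    exact (Z.Gm _ h3).trans (Z.G_le (by omega) n)

/-! ### Finiteness -/

/-- For `x` in the `Π⁰₃` set, each `a` has only finitely many stages. -/
theorem finite_WR {x a : ℕ} (h : ∃ b, ∀ c, Z.W.R x a b c = true) :
    {r | aa r = a ∧ Z.WR x r}.Finite := by
  classical
  obtain ⟨b, hb⟩ := h
  have h1 : ∀ r, aa r = a → Z.WR x r → ss r < b := by
    rintro r rfl ⟨⟨y, -, hy, hy'⟩, -⟩
    by_contra hlt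
    obtain ⟨c, hc⟩ := (Z.hE x (aa r) (ss r)).2 ⟨y, hy, hy'⟩ b (by omega)
    rw [hb c] at hc
    exact absurd hc (by simp)
  -- the map `r ↦ ss r` is injective on the set
  refine Set.Finite.of_injOn (f := ss) (t := {s | s < b}) ?_ ?_ (Set.finite_lt_nat b)
  · rintro r ⟨h2, h3⟩
    exact h1 r h2 h3
  · rintro r ⟨h2, ⟨y, hy1, hy2, hy3⟩, -⟩ r' ⟨h2', ⟨y', hy1', hy2', hy3'⟩, -⟩ h4
    have h5 : uu r = uu r' := by
      rw [← hy1, ← hy1']
      refine Z.hEu (inp x (aa r) (ss r)) y y' hy2 hy3 ?_ hy3'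
      rw [h2, h4, ← h2']
      exact hy2'
    rw [← mk3_eq r, ← mk3_eq r', h2, h2', h4, h5]

/-- For each `a` only finitely many stages are blocked. -/
theorem finite_blocked (x a : ℕ) : {r | aa r = a ∧ Z.WR x r ∧ ¬ Z.Ra x r}.Finite := by
  classical
  have h1 : ∀ r, r ∈ {r | aa r = a ∧ Z.WR x r ∧ ¬ Z.Ra x r} → ∃ e < a, Z.Blk x e r := by
    rintro r ⟨rfl, h2, h3⟩
    by_contra h4
    push Not at h4
    exact h3 ⟨h2, h4⟩
  choose! e he using h1
  refine Set.Finite.of_injOn (f := e) (t := {s | s < a}) ?_ ?_ (Set.finite_lt_nat a)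
  · intro r hr
    exact (he r hr).1
  · intro r hr r' hr' h2
    have h3 := (he r hr).2
    rw [h2] at h3
    exact Z.Blk_unique h3 (he r' hr').2

end Dat

end Pool.Agent.H83.SCD
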