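import Pool.Agent.H83.SCD.Stage

/-! Scales, deterministic version: verification of the languages `VX` of the negative case; the test is decidable. -/

namespace Pool.Agent.H83.SCD

open Pool.Agent.Lead.NTM Pool.Agent.H71.NT Pool.Agent.H79.Cx Encodable Denumerable
open Pool.Agent.H83.NT (Pl words mem_words accv AL AL_iff AccL accv_iff Coding exists_coding P3
  IsPi3 IndexSet exists_machine_of_desc mem_NTIMEPol_iff exists_time_bound closed_iff)
open Pool.Agent.H27.LD (aa ss uu mk3 inp EV exq Slowly cp_comp cp_congr cp_primrec)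
open Pool.Agent.H83.SCL (Scale UPol Near sS sS_succ lv fm fm_succ lv_le computable_sS computable_fm)

variable {α : Type} [Enc α]

/-! ### Chains of special lengths -/

/-- One step along a chain. -/
def scdVer_cst (D : Desc) (n : ℕ) (s : ℕ × ℕ) (h : List ℕ) : ℕ × ℕ :=
  if (D.valid (Nat.pair s.1 s.2) h && D.acc h) = true then
    (s.1 + 1, min (n + 1) (h.length + 2))
  else (s.1 + 1, n + 1)

/-- The end of a chain. -/
def scdVer_chn (D : Desc) (n : ℕ) (l : List (List ℕ)) : ℕ × ℕ :=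
  l.foldl (scdVer_cst D n) (0, 2)

theorem scdVer_cst_fst (D : Desc) (n : ℕ) (s : ℕ × ℕ) (h : List ℕ) :
    (scdVer_cst D n s h).1 = s.1 + 1 := by
  unfold scdVer_cst
  split_ifs <;> rfl

theorem scdVer_cst_snd_le (D : Desc) (n : ℕ) (s : ℕ × ℕ) (h : List ℕ) :
    (scdVer_cst D n s h).2 ≤ n + 1 := by
  unfold scdVer_cst
  split_ifs
  · exact min_le_left _ _
  · exact le_rfl

theorem scdVer_chn_append (D : Desc) (n : ℕ) (l : List (List ℕ)) (h : List ℕ) :
    scdVer_chn D n (l ++ [h]) = scdVer_cst D n (scdVer_chn D n l) h := by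
  unfold scdVer_chn
  rw [List.foldl_append]
  rfl

theorem scdVer_chn_fst (D : Desc) (n : ℕ) (l : List (List ℕ)) :
    (scdVer_chn D n l).1 = l.length := by
  induction l using List.reverseRecOn with
  | nil => rfl
  | append_singleton l h ih => rw [scdVer_chn_append, scdVer_cst_fst, ih]; simp

theorem scdVer_chn_snd_le (D : Desc) (n : ℕ) (l : List (List ℕ)) :
    (scdVer_chn D n l).2 ≤ n + 2 := by
  induction l using List.reverseRecOn with
  | nil => exact Nat.le_add_left _ _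
  | append_singleton l h ih =>
    rw [scdVer_chn_append]
    exact (scdVer_cst_snd_le _ _ _ _).trans (by omega)

@[fun_prop]
theorem scdVer_PT_chn (D : Desc) {n : α → ℕ} {l : α → List (List ℕ)} (hn : PT n) (hl : PT l) :
    PT (fun x => scdVer_chn D (n x) (l x)) := by
  unfold scdVer_chn
  obtain ⟨R, hR⟩ := hn.size_le
  obtain ⟨Q, hQ⟩ := hl.size_le
  refine PT.foldl (f := fun x s h => scdVer_cst D (n x) s h) ?_ hl (by fun_prop)
    (7 + 2 * R + 2 * Q) ?_
  · unfold scdVer_cst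
    fun_prop
  · intro a i _
    have h1 := scdVer_chn_fst D (n a) ((l a).take i)
    have h2 := scdVer_chn_snd_le D (n a) ((l a).take i)
    have h3 := hR a
    have h4 := hQ a
    have h5 : ((l a).take i).length ≤ (l a).length := by
      rw [List.length_take]; exact min_le_right _ _
    have h6 := length_le_sz (l a)
    rw [sz_nat] at h3
    show sz (scdVer_chn D (n a) ((l a).take i)) ≤ _
    rw [sz_pair, sz_nat, sz_nat, h1]
    simp only [Polynomial.eval_add, Polynomial.eval_mul, Polynomial.eval_ofNat]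
    omega

section Chain

variable {D : Desc} {σ : ℕ → ℕ} (hD : IsTime D σ)

include hD

theorem scdVer_lt_succ (r : ℕ) : σ (Nat.pair r (sS σ r)) + 2 = sS σ (r + 1) ∧
    sS σ r ≤ σ (Nat.pair r (sS σ r)) := by
  refine ⟨(sS_succ σ r).symm, ?_⟩
  exact (Nat.right_le_pair r (sS σ r)).trans (hD.2 _)

theorem scdVer_chn_inv (n : ℕ) (l : List (List ℕ)) :
    (scdVer_chn D n l).2 = sS σ l.length ∨ (scdVer_chn D n l).2 = n + 1 := by
  induction l using List.reverseRecOn with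
  | nil => exact Or.inl rfl
  | append_singleton l h ih =>
    rw [scdVer_chn_append, List.length_append, List.length_singleton, sS_succ]
    unfold scdVer_cst
    split_ifs with hv
    · rw [Bool.and_eq_true] at hv
      have hlen := hD.length hv.1 hv.2
      simp only
      rw [scdVer_chn_fst] at hlen
      rw [hlen]
      rcases ih with h3 | h3
      · rw [h3]
        rcases Nat.le_total (n + 1) (σ (Nat.pair l.length (sS σ l.length)) + 2) with h4 | h4
        · right; exact min_eq_left h4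
        · left; exact min_eq_right h4
      · right
        rw [h3]
        have h4 := hD.2 (Nat.pair l.length (n + 1))
        have h5 := Nat.right_le_pair l.length (n + 1)
        exact min_eq_left (by omega)
    · exact Or.inr rfl

theorem scdVer_chn_eq {n : ℕ} {l : List (List ℕ)} (h : (scdVer_chn D n l).2 = n) :
    sS σ l.length = n := by
  rcases scdVer_chn_inv hD n l with h1 | h1
  · exact h1.symm.trans h
  · omega

theorem scdVer_exists_chain (n r : ℕ) (h : sS σ r ≤ n) : ∃ l : List (List ℕ), l.length = r ∧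
    (scdVer_chn D n l).2 = sS σ r ∧ ∀ x ∈ l, x.length ≤ n ∧ ∀ ρ ∈ x, ρ < D.nr := by
  induction r with
  | zero => exact ⟨[], rfl, rfl, by simp⟩
  | succ r ih =>
    obtain ⟨h0, h00⟩ := scdVer_lt_succ hD r
    obtain ⟨l, hl, hc, hx⟩ := ih (by omega)
    obtain ⟨x, hxl, hxv, hxa⟩ := hD.exists (Nat.pair r (sS σ r))
    refine ⟨l ++ [x], by simp [hl], ?_, ?_⟩
    · rw [scdVer_chn_append]
      unfold scdVer_cst
      rw [scdVer_chn_fst, hl, hc, if_pos (by rw [Bool.and_eq_true]; exact ⟨hxv, hxa⟩)]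
      simp only
      rw [hxl]
      rw [h0]
      exact min_eq_right (by omega)
    · intro y hy
      rw [List.mem_append, List.mem_singleton] at hy
      rcases hy with hy | rfl
      · exact hx y hy
      · exact ⟨by omega, Desc.lt_of_valid hxv⟩

theorem scdVer_le_sS (r : ℕ) : r ≤ sS σ r := by
  induction r with
  | zero => exact Nat.zero_le _
  | succ r ih =>
    obtain ⟨h0, h00⟩ := scdVer_lt_succ hD r
    omega

end Chain

/-! ### The verification functions -/

/-- The verification function of the test. The certificate is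
`[s, u, a, v] :: h₂ :: h₃ :: h₄ :: l`. -/
def scdVer_W (D D2 : Desc) (n : ℕ) (c : List (List ℕ)) : Bool :=
  decide ((scdVer_chn D2 n (c.drop 4)).2 = n) &&
  (decide (Nat.pair (Desc.at2 c 0 2) (Nat.pair (Desc.at2 c 0 0) (Desc.at2 c 0 1)) =
    (c.drop 4).length) &&
  (decide (0 < (c.drop 4).length) &&
  (D.valid (Nat.pair (Nat.pair ((c.drop 4).length + kk (Desc.at2 c 0 0)) n) (Desc.at2 c 0 3))
    (c.getD 2 []) && (D.acc (c.getD 2 []) &&
  (decide ((c.getD 1 []).length ≤ Desc.at2 c 0 3) &&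
  ((dd (Desc.at2 c 0 0)).valid n (c.getD 1 []) &&
    (dd (Desc.at2 c 0 0)).acc (c.getD 1 [])))))))

/-- The verification function with the events. -/
def scdVer_X (D D2 E : Desc) (x a n : ℕ) (c : List (List ℕ)) : Bool :=
  scdVer_W D D2 n c && (decide (Desc.at2 c 0 2 = a) &&
    (decide ((c.getD 3 []).length = Desc.at2 c 0 1) &&
    (E.valid (Nat.pair x (Nat.pair a (Desc.at2 c 0 0))) (c.getD 3 []) && E.acc (c.getD 3 []))))

@[fun_prop]
theorem scdVer_PT_W (D D2 : Desc) {n : α → ℕ} {c : α → List (List ℕ)} (hn : PT n) (hc : PT c) :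
    PT (fun x => scdVer_W D D2 (n x) (c x)) := by
  unfold scdVer_W
  fun_prop

@[fun_prop]
theorem scdVer_PT_X (D D2 E : Desc) (x a : ℕ) {n : α → ℕ} {c : α → List (List ℕ)} (hn : PT n)
    (hc : PT c) : PT (fun z => scdVer_X D D2 E x a (n z) (c z)) := by
  unfold scdVer_X
  fun_prop

/-- The verification functions on lists of bits. -/
def scdVer_WB (D D2 : Desc) (x : ℕ × List Bool) : Bool := scdVer_W D D2 x.1 (decLL (parse x.2))

/-- The verification functions on lists of bits. -/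
def scdVer_XB (D D2 E : Desc) (x a : ℕ) (z : ℕ × List Bool) : Bool :=
  scdVer_X D D2 E x a z.1 (decLL (parse z.2))

theorem scdVer_pt_WB (D D2 : Desc) : PT (scdVer_WB D D2) := by
  show PT fun x => scdVer_WB D D2 x
  unfold scdVer_WB
  fun_prop

theorem scdVer_pt_XB (D D2 E : Desc) (x a : ℕ) : PT (scdVer_XB D D2 E x a) := by
  show PT fun z => scdVer_XB D D2 E x a z
  unfold scdVer_XB
  fun_prop

theorem scdVer_W_iff (D D2 : Desc) (n : ℕ) (c : List (List ℕ)) : scdVer_W D D2 n c = true ↔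
    (scdVer_chn D2 n (c.drop 4)).2 = n ∧
    mk3 (Desc.at2 c 0 2) (Desc.at2 c 0 0) (Desc.at2 c 0 1) = (c.drop 4).length ∧
    0 < (c.drop 4).length ∧
    D.valid (Nat.pair (Nat.pair ((c.drop 4).length + kk (Desc.at2 c 0 0)) n) (Desc.at2 c 0 3))
      (c.getD 2 []) = true ∧ D.acc (c.getD 2 []) = true ∧
    (c.getD 1 []).length ≤ Desc.at2 c 0 3 ∧
    (dd (Desc.at2 c 0 0)).valid n (c.getD 1 []) = true ∧
    (dd (Desc.at2 c 0 0)).acc (c.getD 1 []) = true := by
  unfold scdVer_W mk3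
  simp only [Bool.and_eq_true, decide_eq_true_eq]

theorem scdVer_WB_cd (D D2 : Desc) (n : ℕ) (c : List (List ℕ)) :
    scdVer_WB D D2 (n, cd c) = scdVer_W D D2 n c := by
  unfold scdVer_WB
  have h0 : decLL (parse (cd c)) = c := by
    rw [parse_cd, decLL_enc]
  show scdVer_W D D2 n (decLL (parse (cd c))) = _
  rw [h0]

theorem scdVer_XB_cd (D D2 E : Desc) (x a n : ℕ) (c : List (List ℕ)) :
    scdVer_XB D D2 E x a (n, cd c) = scdVer_X D D2 E x a n c := by
  unfold scdVer_XB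
  have h0 : decLL (parse (cd c)) = c := by
    rw [parse_cd, decLL_enc]
  show scdVer_X D D2 E x a n (decLL (parse (cd c))) = _
  rw [h0]

section Spec

variable (Z : Dat)

/-- What a certificate certifies. -/
theorem scdVer_of_W {n : ℕ} {c : List (List ℕ)} (h : scdVer_W Z.D Z.D2 n c = true) :
    ∃ r, sS Z.σ r = n ∧ WV Z.G Z.σ r ∧ aa r = Desc.at2 c 0 2 ∧ ss r = Desc.at2 c 0 0 ∧
      uu r = Desc.at2 c 0 1 := by
  rw [scdVer_W_iff] at h
  obtain ⟨h1, h2, h3, h4, h5, h6, h7, h8⟩ := h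
  have hn := scdVer_chn_eq Z.hσ h1
  have e1 : ss (c.drop 4).length = Desc.at2 c 0 0 := by
    rw [← h2, Pool.Agent.H27.LD.ss_mk3]
  have hv := (Z.hD ((c.drop 4).length + kk (Desc.at2 c 0 0)) n (Desc.at2 c 0 3)).1 ⟨_, h4, h5⟩
  refine ⟨_, hn, ⟨h3, ?_⟩, ?_, e1, ?_⟩
  · unfold tv lv
    rw [e1, hn, ← hv]
    exact ⟨_, h6, h7, h8⟩
  · rw [← h2, Pool.Agent.H27.LD.aa_mk3]
  · rw [← h2, Pool.Agent.H27.LD.uu_mk3]

/-- Small certificates, with an arbitrary fourth history. -/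
theorem scdVer_exists_cert (b : ℕ) : ∃ Q : Polynomial ℕ, ∀ (r : ℕ) (h4 : List ℕ),
    WV Z.G Z.σ r → h4.length ≤ sS Z.σ r → (∀ ρ ∈ h4, ρ < b) →
    ∃ c : List (List ℕ), scdVer_W Z.D Z.D2 (sS Z.σ r) c = true ∧ c.getD 3 [] = h4 ∧
      Desc.at2 c 0 2 = aa r ∧ Desc.at2 c 0 0 = ss r ∧ Desc.at2 c 0 1 = uu r ∧
      (cd c).length ≤ Q.eval (sS Z.σ r + tv Z.G Z.σ r) := by
  obtain ⟨R, hR⟩ := (PT.dd (α := ℕ) PT.id).size_le
  refine ⟨20 + 8 * Polynomial.X +
    (1 + Polynomial.X * (2 * (R.comp (2 * Polynomial.X + 1)) + 2)) +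
    (1 + Z.pD.comp (3 * Polynomial.X) * Polynomial.C (2 * Z.D.nr + 2)) +
    (1 + Polynomial.X * Polynomial.C (2 * b + 2)) +
    (1 + Polynomial.X * (1 + (1 + Polynomial.X * Polynomial.C (2 * Z.D2.nr + 2)))), ?_⟩
  rintro r h4 ⟨h0, h2, hl2, hv2, ha2⟩ hl4 hb4
  set n := sS Z.σ r with hn
  obtain ⟨h3, hl3, hv3, ha3⟩ := Z.hDp (lv r) n
  obtain ⟨l, hl, hc, hx⟩ := scdVer_exists_chain Z.hσ n r le_rfl
  have hvl : tv Z.G Z.σ r = Z.G (lv r) n := rfl
  set v := tv Z.G Z.σ r with hvd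
  refine ⟨[ss r, uu r, aa r, v] :: h2 :: h3 :: h4 :: l, ?_, rfl, rfl, rfl, rfl, ?_⟩
  · rw [scdVer_W_iff]
    have hd : ([ss r, uu r, aa r, v] :: h2 :: h3 :: h4 :: l).drop 4 = l := rfl
    rw [hd, hl]
    refine ⟨hc, Pool.Agent.H27.LD.mk3_eq r, h0, ?_, ha3, hl2, hv2, ha2⟩
    show Z.D.valid (Nat.pair (Nat.pair (r + kk (ss r)) n) v) h3 = true
    rw [hvl]
    exact hv3
  · rw [length_cd]
    have hrn : r ≤ n := scdVer_le_sS Z.hσ r
    have hsr := Pool.Agent.H27.LD.ss_le r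
    have hur := Pool.Agent.H27.LD.uu_le r
    have har : aa r ≤ r := Nat.unpair_left_le r
    have hlv := lv_le r
    have e1 : sz ([ss r, uu r, aa r, v] :: h2 :: h3 :: h4 :: l) =
        1 + (1 + (2 * ss r + 1) + (1 + (2 * uu r + 1) + (1 + (2 * aa r + 1) +
          (1 + (2 * v + 1) + 1)))) +
        (1 + sz h2 + (1 + sz h3 + (1 + sz h4 + sz l))) := by
      simp only [sz_cons, sz_nil, sz_nat]
    have e3 : (dd (ss r)).nr ≤ R.eval (2 * n + 1) := by
      have h3 := hR (ss r)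
      have h4 : (dd (ss r)).length ≤ sz (dd (ss r)) := length_le_sz _
      have h5 : R.eval (sz (ss r)) ≤ R.eval (2 * n + 1) := eval_mono R (by rw [sz_nat]; omega)
      have h6 : (dd (ss r)).nr = (dd (ss r)).length - 1 := rfl
      omega
    have e4 : sz h2 ≤ 1 + v * (2 * R.eval (2 * n + 1) + 2) := by
      refine (sz_hist_le (Desc.lt_of_valid hv2)).trans (Nat.add_le_add_left ?_ _)
      exact Nat.mul_le_mul hl2 (by omega)
    have e4' : sz h3 ≤ 1 + Z.pD.eval (lv r + Z.G (lv r) n) * (2 * Z.D.nr + 2) := by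
      refine (sz_hist_le (Desc.lt_of_valid hv3)).trans (Nat.add_le_add_left ?_ _)
      exact Nat.mul_le_mul_right _ hl3
    have e4b : sz h4 ≤ 1 + n * (2 * b + 2) :=
      (sz_hist_le hb4).trans (Nat.add_le_add_left (Nat.mul_le_mul_right _ hl4) _)
    have e4'' : sz l ≤ 1 + r * (1 + (1 + n * (2 * Z.D2.nr + 2))) := by
      rw [← hl]
      refine sz_list_le l _ fun x hxm => ?_
      obtain ⟨hx1, hx2⟩ := hx x hxm
      exact (sz_hist_le hx2).trans (Nat.add_le_add_left (Nat.mul_le_mul_right _ hx1) _)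
    set X := n + v with hX
    have e5b : n * (2 * b + 2) ≤ X * (2 * b + 2) := Nat.mul_le_mul_right _ (by omega)
    have e6 : v * (2 * R.eval (2 * n + 1) + 2) ≤ X * (2 * R.eval (2 * X + 1) + 2) := by
      have h7 : R.eval (2 * n + 1) ≤ R.eval (2 * X + 1) := eval_mono R (by omega)
      exact Nat.mul_le_mul (by omega) (by omega)
    have e7 : Z.pD.eval (lv r + Z.G (lv r) n) * (2 * Z.D.nr + 2) ≤
        Z.pD.eval (3 * X) * (2 * Z.D.nr + 2) := by
      refine Nat.mul_le_mul_right _ (eval_mono Z.pD ?_)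
      rw [← hvl]
      omega
    have e8 : r * (1 + (1 + n * (2 * Z.D2.nr + 2))) ≤
        X * (1 + (1 + X * (2 * Z.D2.nr + 2))) := by
      have h7 : n * (2 * Z.D2.nr + 2) ≤ X * (2 * Z.D2.nr + 2) :=
        Nat.mul_le_mul_right _ (by omega)
      exact Nat.mul_le_mul (by omega) (by omega)
    simp only [Polynomial.eval_add, Polynomial.eval_mul, Polynomial.eval_ofNat,
      Polynomial.eval_one, Polynomial.eval_X, Polynomial.eval_C, Polynomial.eval_comp]
    rw [e1]
    omega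

theorem scdVer_exists_certW : ∃ Q : Polynomial ℕ, ∀ r, WV Z.G Z.σ r →
    ∃ y, scdVer_WB Z.D Z.D2 (sS Z.σ r, y) = true ∧
      y.length ≤ Q.eval (sS Z.σ r + tv Z.G Z.σ r) := by
  obtain ⟨Q, hQ⟩ := scdVer_exists_cert Z 0
  refine ⟨Q, fun r hr => ?_⟩
  obtain ⟨c, h1, -, -, -, -, h2⟩ := hQ r [] hr (Nat.zero_le _) (by simp)
  exact ⟨cd c, by rw [scdVer_WB_cd, h1], h2⟩

theorem scdVer_exists_WB_iff (n : ℕ) :
    (∃ y, scdVer_WB Z.D Z.D2 (n, y) = true) ↔ ∃ r, sS Z.σ r = n ∧ WV Z.G Z.σ r := by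
  constructor
  · rintro ⟨y, hy⟩
    obtain ⟨r, h1, h2, -⟩ := scdVer_of_W Z hy
    exact ⟨r, h1, h2⟩
  · rintro ⟨r, rfl, hr⟩
    obtain ⟨Q, hQ⟩ := scdVer_exists_certW Z
    obtain ⟨y, hy, -⟩ := hQ r hr
    exact ⟨y, hy⟩

theorem scdVer_exists_certX (x a : ℕ) : ∃ Q : Polynomial ℕ, ∀ r, aa r = a → Z.WR x r →
    ∃ y, scdVer_XB Z.D Z.D2 Z.E x a (sS Z.σ r, y) = true ∧
      y.length ≤ Q.eval (sS Z.σ r + tv Z.G Z.σ r) := by
  obtain ⟨Q, hQ⟩ := scdVer_exists_cert Z Z.E.nr
  refine ⟨Q, fun r ha hr => ?_⟩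
  obtain ⟨⟨h4, hl4, hv4, ha4⟩, hW⟩ := hr
  have hrn : r ≤ sS Z.σ r := scdVer_le_sS Z.hσ r
  have hur := Pool.Agent.H27.LD.uu_le r
  obtain ⟨c, h1, h2, h3, h5, h6, h7⟩ := hQ r h4 hW (by omega) (Desc.lt_of_valid hv4)
  refine ⟨cd c, ?_, h7⟩
  rw [scdVer_XB_cd]
  unfold scdVer_X
  simp only [Bool.and_eq_true, decide_eq_true_eq]
  unfold inp at hv4
  rw [h2, h3, h5, h6, ← ha]
  exact ⟨h1, rfl, hl4, hv4, ha4⟩

theorem scdVer_exists_XB_iff (x a n : ℕ) :
    (∃ y, scdVer_XB Z.D Z.D2 Z.E x a (n, y) = true) ↔ Z.VX x a n := by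
  constructor
  · rintro ⟨y, hy⟩
    unfold scdVer_XB scdVer_X at hy
    simp only [Bool.and_eq_true, decide_eq_true_eq] at hy
    obtain ⟨h1, h2, h3, h4, h5⟩ := hy
    obtain ⟨r, h6, h7, h8, h9, h10⟩ := scdVer_of_W Z h1
    refine ⟨r, h6, by rw [h8, h2], ⟨_, by rw [h3, h10], ?_, h5⟩, h7⟩
    unfold inp
    rw [h8, h2, h9]
    exact h4
  · rintro ⟨r, rfl, h1, h2⟩
    obtain ⟨Q, hQ⟩ := scdVer_exists_certX Z x a
    obtain ⟨y, hy, -⟩ := hQ r h1 h2
    exact ⟨y, hy⟩

end Spec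

/-- A verification function for the languages of the negative case. -/
theorem exists_verX (Z : Dat) (x a : ℕ) : ∃ (f : ℕ × List Bool → Bool), PT f ∧
    (∀ n, (∃ y, f (n, y) = true) ↔ Z.VX x a n) ∧
    ∃ Q : Polynomial ℕ, ∀ r, aa r = a → Z.WR x r → ∃ y, f (sS Z.σ r, y) = true ∧
      y.length ≤ Q.eval (sS Z.σ r + tv Z.G Z.σ r) :=
  ⟨_, scdVer_pt_XB Z.D Z.D2 Z.E x a, scdVer_exists_XB_iff Z x a, scdVer_exists_certX Z x a⟩

/-- The part of the test not depending on `x` is decidable. -/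
theorem cp_WV (Z : Dat) : ComputablePred fun r => WV Z.G Z.σ r := by
  obtain ⟨T, hT⟩ := exists_guess_machine (scdVer_pt_WB Z.D Z.D2)
  obtain ⟨M, hM, hM'⟩ := hT Unit
  obtain ⟨Q, hQ⟩ := scdVer_exists_certW Z
  have hs := Z.sS_strictMono
  have hsc := computable_sS Z.σc
  have hlv : Computable lv := by
    have h1 : Computable fun r => kk (ss r) :=
      primrec_kk.to_comp.comp Pool.Agent.H27.LD.primrec_ss.to_comp
    exact Primrec.nat_add.to_comp.comp Computable.id h1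
  have hval : Computable (tv Z.G Z.σ) := Z.Gc.comp hlv hsc
  have hB : Computable fun r : ℕ => T.eval (sS Z.σ r + Q.eval (sS Z.σ r + tv Z.G Z.σ r)) := by
    refine (primrec_polyEval T).to_comp.comp (Primrec.nat_add.to_comp.comp hsc ?_)
    exact (primrec_polyEval Q).to_comp.comp (Primrec.nat_add.to_comp.comp hsc hval)
  have h1 := cp_comp (cp_primrec (primrecPred_acceptsWithin M ())) (hsc.pair hB)
  refine cp_congr h1 fun r => ?_
  have hlen : (List.replicate (sS Z.σ r) ()).length = sS Z.σ r := List.length_replicate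
  constructor
  · rintro ⟨s, -, hs'⟩
    have h2 := (hM (List.replicate (sS Z.σ r) ())).1 ⟨s, hs'⟩
    rw [hlen, scdVer_exists_WB_iff Z] at h2
    obtain ⟨r', h3, h4⟩ := h2
    rwa [hs.injective h3] at h4
  · intro hW
    obtain ⟨y, hy, hyl⟩ := hQ r hW
    obtain ⟨s, hs', ha⟩ := hM' (List.replicate (sS Z.σ r) ()) y (by rw [hlen]; exact hy)
    refine ⟨s, hs'.trans ?_, ha⟩
    rw [hlen]
    exact eval_mono T (Nat.add_le_add_left hyl _)

end Pool.Agent.H83.SCD
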